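import Pool.Agent.W_68f289_h51m.Pa

section

/-!
The set of end points of topological Hamiltonian paths of small energy is the continuous image of a
Polish space.
-/

open Set Metric Topology Filter Pool.Agent.W_MP_68f289_gt Pool.Agent.W_68f289_h35
open scoped NNReal ContDiff

namespace Pool.Agent.W_68f289_h51

variable {n : ℕ} {r : ℝ} {K : Set (E n)} {H : ℕ → ℝ → E n → ℝ} {ψ : ℕ → ℝ → E n → E n}
  {Φ : Icc (0 : ℝ) 1 → (E n ≃ₜ E n)}

/-- fast Cauchy sequences with bounds -/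
def FS (d : ℕ → SP n r) (δ : ℝ) : Set (ℕ → ℕ) :=
  {a | Fast (fun k => d (a k)) ∧ (∀ k, hofer (d (a k)).H ≤ δ) ∧
    ∀ k, ∀ t ∈ Icc (0 : ℝ) 1, ∀ x, dist ((d (a k)).ψ t x) x ≤ δ}

lemma closed_FS (d : ℕ → SP n r) (δ : ℝ) : IsClosed (FS d δ) := by
  have e : FS d δ = (⋂ k : ℕ, (fun a : ℕ → ℕ => (a k, a (k + 1))) ⁻¹'
      {q : ℕ × ℕ | Near ((1 / 2) ^ k) (d q.1) (d q.2)}) ∩
      ((⋂ k : ℕ, (fun a : ℕ → ℕ => a k) ⁻¹' {i : ℕ | hofer (d i).H ≤ δ}) ∩
      ⋂ k : ℕ, (fun a : ℕ → ℕ => a k) ⁻¹'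
        {i : ℕ | ∀ t ∈ Icc (0 : ℝ) 1, ∀ x, dist ((d i).ψ t x) x ≤ δ}) := by
    ext a
    simp only [FS, Fast, mem_setOf_eq, mem_inter_iff, mem_iInter, mem_preimage]
  rw [e]
  refine IsClosed.inter (isClosed_iInter fun k => ?_) (IsClosed.inter
    (isClosed_iInter fun k => ?_) (isClosed_iInter fun k => ?_))
  · exact (isClosed_discrete _).preimage ((continuous_apply k).prodMk (continuous_apply (k + 1)))
  · exact (isClosed_discrete _).preimage (continuous_apply k)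
  · exact (isClosed_discrete _).preimage (continuous_apply k)

instance instPolishFS (d : ℕ → SP n r) (δ : ℝ) : PolishSpace (FS d δ) :=
  (closed_FS d δ).polishSpace

/-- the limit of a fast sequence -/
noncomputable def limP (hr0 : 0 ≤ r) (hr1 : r < 1) {d : ℕ → SP n r} {δ : ℝ} (a : FS d δ) :
    Icc (0 : ℝ) 1 → (E n ≃ₜ E n) := (a.2.1.exists_path hr0 hr1).choose

lemma limP_path (hr0 : 0 ≤ r) (hr1 : r < 1) {d : ℕ → SP n r} {δ : ℝ} (a : FS d δ) :
    TPath n (CB n r) (fun k => (d (a.1 k)).H) (fun k => (d (a.1 k)).ψ) (limP hr0 hr1 a) :=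
  (a.2.1.exists_path hr0 hr1).choose_spec.1

lemma limP_fwd (hr0 : 0 ≤ r) (hr1 : r < 1) {d : ℕ → SP n r} {δ : ℝ} (a : FS d δ) (k : ℕ)
    (t : Icc (0 : ℝ) 1) (x : E n) :
    dist ((d (a.1 k)).ψ t x) (limP hr0 hr1 a t x) ≤ 2 * (1 / 2) ^ k :=
  (a.2.1.exists_path hr0 hr1).choose_spec.2.1 k t x

lemma limP_bwd (hr0 : 0 ≤ r) (hr1 : r < 1) {d : ℕ → SP n r} {δ : ℝ} (a : FS d δ) (k : ℕ)
    (t : Icc (0 : ℝ) 1) (x : E n) :
    dist ((d (a.1 k)).χ t x) ((limP hr0 hr1 a t).symm x) ≤ 2 * (1 / 2) ^ k :=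
  (a.2.1.exists_path hr0 hr1).choose_spec.2.2 k t x

lemma exists_small_pow {ε : ℝ} (hε : 0 < ε) : ∃ k : ℕ, 4 * ((1 : ℝ) / 2) ^ k < ε := by
  obtain ⟨N, hN⟩ := exists_pow_lt_of_lt_one (show 0 < ε / 4 by positivity)
    (show (1 : ℝ) / 2 < 1 by norm_num)
  exact ⟨N, by linarith⟩

lemma limP_dist (hr0 : 0 ≤ r) (hr1 : r < 1) {d : ℕ → SP n r} {δ : ℝ} (a : FS d δ)
    (t : Icc (0 : ℝ) 1) (x : E n) : dist (limP hr0 hr1 a t x) x ≤ δ := by
  apply le_of_forall_pos_le_add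
  intro ε hε
  obtain ⟨k, hk⟩ := exists_small_pow hε
  have h1 := limP_fwd hr0 hr1 a k t x
  have h2 := a.2.2.2 k t t.2 x
  have h3 := dist_triangle_left (limP hr0 hr1 a t x) x ((d (a.1 k)).ψ t x)
  have h4 : (0 : ℝ) < (1 / 2) ^ k := by positivity
  linarith

/-- the end point -/
noncomputable def ep (hr0 : 0 ≤ r) (hr1 : r < 1) {d : ℕ → SP n r} {δ : ℝ} (a : FS d δ) : G n :=
  ⟨endp (limP hr0 hr1 a), Hameo_le (limP_path hr0 hr1 a).endp_mem⟩

lemma ep_smul (hr0 : 0 ≤ r) (hr1 : r < 1) {d : ℕ → SP n r} {δ : ℝ} (a : FS d δ) (x : E n) :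
    ep hr0 hr1 a • x = limP hr0 hr1 a ⟨1, by simp⟩ x := rfl

lemma ep_inv_smul (hr0 : 0 ≤ r) (hr1 : r < 1) {d : ℕ → SP n r} {δ : ℝ} (a : FS d δ) (x : E n) :
    (ep hr0 hr1 a)⁻¹ • x = (limP hr0 hr1 a ⟨1, by simp⟩).symm x := rfl

theorem ep_cont (hr0 : 0 ≤ r) (hr1 : r < 1) (d : ℕ → SP n r) (δ : ℝ) :
    Continuous fun a : FS d δ => res (ep hr0 hr1 a) := by
  have hnb : ∀ (a : FS d δ) (k : ℕ), ∀ᶠ b : FS d δ in 𝓝 a, b.1 k = a.1 k := by
    intro a k
    have h1 : Continuous fun b : FS d δ => b.1 k :=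
      (continuous_apply k).comp continuous_subtype_val
    have h2 : ({a.1 k} : Set ℕ) ∈ 𝓝 (a.1 k) := by simp
    exact h1.continuousAt.eventually h2
  have hfst : Continuous fun a : FS d δ => (res (ep hr0 hr1 a)).1.1 := by
    rw [Metric.continuous_iff']
    intro a ε hε
    obtain ⟨k, hk⟩ := exists_small_pow hε
    filter_upwards [hnb a k] with b hb
    refine lt_of_le_of_lt ((ContinuousMap.dist_le (by positivity)).2 fun z => ?_) hk
    rw [Subtype.dist_eq, res_fst, res_fst, ep_smul, ep_smul]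
    have h1 := limP_fwd hr0 hr1 a k ⟨1, by simp⟩ z
    have h2 := limP_fwd hr0 hr1 b k ⟨1, by simp⟩ z
    rw [hb] at h2
    have h3 := dist_triangle_left (limP hr0 hr1 b ⟨1, by simp⟩ z) (limP hr0 hr1 a ⟨1, by simp⟩ z)
      ((d (a.1 k)).ψ (⟨1, by simp⟩ : Icc (0 : ℝ) 1) z)
    linarith
  have hsnd : Continuous fun a : FS d δ => (res (ep hr0 hr1 a)).1.2 := by
    rw [Metric.continuous_iff']
    intro a ε hε
    obtain ⟨k, hk⟩ := exists_small_pow hε
    filter_upwards [hnb a k] with b hb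
    refine lt_of_le_of_lt ((ContinuousMap.dist_le (by positivity)).2 fun z => ?_) hk
    rw [Subtype.dist_eq, res_snd, res_snd, ep_inv_smul, ep_inv_smul]
    have h1 := limP_bwd hr0 hr1 a k ⟨1, by simp⟩ z
    have h2 := limP_bwd hr0 hr1 b k ⟨1, by simp⟩ z
    rw [hb] at h2
    have h3 := dist_triangle_left ((limP hr0 hr1 b ⟨1, by simp⟩).symm z)
      ((limP hr0 hr1 a ⟨1, by simp⟩).symm z)
      ((d (a.1 k)).χ (⟨1, by simp⟩ : Icc (0 : ℝ) 1) z)
    linarith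
  exact continuous_induced_rng.2 (hfst.prodMk hsnd)

/-- end points of paths of small energy -/
theorem exists_ep (hr0 : 0 ≤ r) (hr1 : r < 1) {d : ℕ → SP n r} (hd : Dns d)
    (h : TPath n (CB n r) H ψ Φ) {δ : ℝ} (hδ : 0 < δ) (hH : ∀ k, hofer (H k) ≤ δ)
    (hΦ : ∀ t x, dist (Φ t x) x ≤ δ) :
    ∃ a : FS d (2 * δ), (ep hr0 hr1 a : E n ≃ₜ E n) = endp Φ := by
  obtain ⟨a, h1, h2, h3, h4⟩ := exists_fast hd h hδ
  refine ⟨⟨a, h1, h3 hH, h4 hΦ⟩, ?_⟩
  ext x : 1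
  apply eq_of_forall_dist_le
  intro ε hε
  obtain ⟨k, hk⟩ := exists_small_pow hε
  have h5 := limP_fwd hr0 hr1 (⟨a, h1, h3 hH, h4 hΦ⟩ : FS d (2 * δ)) k ⟨1, by simp⟩ x
  have h6 := h2 k ⟨1, by simp⟩ x
  have h7 := dist_triangle_left (limP hr0 hr1 (⟨a, h1, h3 hH, h4 hΦ⟩ : FS d (2 * δ))
    ⟨1, by simp⟩ x) (Φ ⟨1, by simp⟩ x) ((d (a k)).ψ (⟨1, by simp⟩ : Icc (0 : ℝ) 1) x)
  have h8 : (0 : ℝ) < (1 / 2) ^ k := by positivity
  change dist (limP hr0 hr1 (⟨a, h1, h3 hH, h4 hΦ⟩ : FS d (2 * δ)) ⟨1, by simp⟩ x)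
    (Φ ⟨1, by simp⟩ x) ≤ ε
  simp only at h5
  linarith

end Pool.Agent.W_68f289_h51

end

section

/-!
The end points of topological Hamiltonian paths are covered by countably many translates of the set
of end points of topological Hamiltonian paths of small energy.
-/

open Set Metric Topology Filter Pool.Agent.W_MP_68f289_gt Pool.Agent.W_68f289_h35
open scoped NNReal ContDiff

namespace Pool.Agent.W_68f289_h51

variable {n : ℕ} {r : ℝ} {K : Set (E n)} {H : ℕ → ℝ → E n → ℝ} {ψ : ℕ → ℝ → E n → E n}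
  {Φ : Icc (0 : ℝ) 1 → (E n ≃ₜ E n)}

/-- the flow maps as homeomorphisms -/
noncomputable def SP.h (p : SP n r) (t : ℝ) : E n ≃ₜ E n := HIso.homeo p.iso t

lemma SP.h_apply (p : SP n r) (t : ℝ) (x : E n) : p.h t x = p.ψ t x := rfl

lemma SP.h_inv_apply (p : SP n r) (t : ℝ) (x : E n) : (p.h t)⁻¹ x = p.χ t x := rfl

/-- the time-one map -/
noncomputable def SP.bs (p : SP n r) : G n :=
  ⟨p.h 1, big_HamBar.ham _ ⟨p.H, p.ψ, p.iso, fun _ => rfl⟩⟩

/-- the path `t ↦ χ t ∘ Φ t`, for a smooth path with inverse maps `χ t` -/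
theorem diff_path (hr0 : 0 ≤ r) (hr1 : r < 1) (p : SP n r) (h : TPath n (CB n r) H ψ Φ) :
    TPath n (CB n r) (fun k t x => H k t (p.ψ t x) - p.H t (p.ψ t x))
      (fun k t x => p.χ t (ψ k t x)) (fun t => (p.h t)⁻¹ * Φ t) := by
  have hsurj : ∀ t, Function.Surjective (p.ψ t) := fun t x => ⟨p.χ t x, p.ψ_χ t x⟩
  refine ⟨isCompact_CB r, CB_sub hr0 hr1, fun k => HIso.diff p.iso (h.iso k), fun k t x hx => ?_,
    fun ε hε => ?_, fun ε hε => ?_⟩
  · rw [p.ψ_off t hx, h.supp k t x hx, p.supp t x hx, sub_self]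
  · obtain ⟨N, hN⟩ := h.cauchy ε hε
    refine ⟨N, fun j k hj hk => ?_⟩
    have e : (fun (t : ℝ) (x : E n) => H j t (p.ψ t x) - p.H t (p.ψ t x) -
        (H k t (p.ψ t x) - p.H t (p.ψ t x))) =
        fun t x => (fun (t : ℝ) (x : E n) => H j t x - H k t x) t (p.ψ t x) := by
      funext t x
      ring
    rw [e, hofer_comp (fun (t : ℝ) (x : E n) => H j t x - H k t x) hsurj]
    exact hN j k hj hk
  · obtain ⟨δ, hδ, h1⟩ := TqA_unif (isCompact_CB r) p.χ_cont (fun t x hx => p.χ_off t hx) hε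
    obtain ⟨N, hN⟩ := h.conv δ hδ
    refine ⟨N, fun k hk t x => ?_⟩
    exact h1 t t (by simpa using hδ) _ _ (hN k hk t x)

theorem cover (hr0 : 0 ≤ r) (hr1 : r < 1) {d : ℕ → SP n r} (hd : Dns d)
    (h : TPath n (CB n r) H ψ Φ) {δ : ℝ} (hδ : 0 < δ) :
    ∃ (i : ℕ) (a : FS d (2 * δ)),
      endp Φ = ((d i).bs : E n ≃ₜ E n) * (ep hr0 hr1 a : E n ≃ₜ E n) := by
  obtain ⟨N1, hN1⟩ := h.cauchy (δ / 4) (by positivity)
  obtain ⟨N3, hN3⟩ := path_inv h (show 0 < δ / 4 by positivity)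
  set J := max N1 N3 with hJ
  obtain ⟨i, hi⟩ := hd (toSP h J) (δ / 4) (by positivity)
  -- shift of the sequence
  have h' : TPath n (CB n r) (fun k => H (J + k)) (fun k => ψ (J + k)) Φ := by
    refine ⟨h.comp, h.sub, fun k => h.iso _, fun k => h.supp _, fun ε hε => ?_, fun ε hε => ?_⟩
    · obtain ⟨N, hN⟩ := h.cauchy ε hε
      exact ⟨N, fun j k hj hk => hN _ _ (hj.trans (Nat.le_add_left _ _))
        (hk.trans (Nat.le_add_left _ _))⟩
    · obtain ⟨N, hN⟩ := h.conv ε hε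
      exact ⟨N, fun k hk => hN _ (hk.trans (Nat.le_add_left _ _))⟩
  have h2 := diff_path hr0 hr1 (d i) h'
  have hsurj : ∀ t, Function.Surjective ((d i).ψ t) := fun t x => ⟨(d i).χ t x, (d i).ψ_χ t x⟩
  have hA : ∀ k, hofer (fun (t : ℝ) (x : E n) => H (J + k) t ((d i).ψ t x) -
      (d i).H t ((d i).ψ t x)) ≤ δ := by
    intro k
    have e : (fun (t : ℝ) (x : E n) => H (J + k) t ((d i).ψ t x) - (d i).H t ((d i).ψ t x)) =
        fun t x => (fun (t : ℝ) (x : E n) => H (J + k) t x - (d i).H t x) t ((d i).ψ t x) := rfl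
    rw [e, hofer_comp (fun (t : ℝ) (x : E n) => H (J + k) t x - (d i).H t x) hsurj]
    have h3 := hofer_tri (p := toSP h (J + k)) (q := toSP h J) (s := d i)
    have h4 := hi.hof
    rw [hofer_symm] at h4
    have h5 := hN1 (J + k) J (by omega) (by omega)
    have e3 : hofer (fun t x => (toSP h (J + k)).H t x - (d i).H t x) =
      hofer (fun t x => H (J + k) t x - (d i).H t x) := rfl
    have e5 : hofer (fun t x => (toSP h (J + k)).H t x - (toSP h J).H t x) =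
      hofer (fun t x => H (J + k) t x - H J t x) := rfl
    rw [e3, e5] at h3
    linarith
  have hB : ∀ (t : Icc (0 : ℝ) 1) (x : E n), dist ((((d i).h t)⁻¹ * Φ t : E n ≃ₜ E n) x) x ≤ δ := by
    intro t x
    change dist ((d i).χ t (Φ t x)) x ≤ δ
    have h3 := hi.bwd t t.2 (Φ t x)
    have h4 := hN3 J (le_max_right _ _) t (Φ t x)
    rw [Homeomorph.symm_apply_apply] at h4
    have h5 := dist_triangle ((d i).χ t (Φ t x)) ((toSP h J).χ t (Φ t x)) x
    have e : (toSP h J).χ t (Φ t x) = HIso.inv (h.iso J) t (Φ t x) := rfl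
    rw [e] at h3 h5
    linarith
  obtain ⟨a, ha⟩ := exists_ep hr0 hr1 hd h2 hδ hA hB
  refine ⟨i, a, ?_⟩
  rw [ha]
  change endp Φ = (d i).h 1 * (((d i).h 1)⁻¹ * endp Φ)
  rw [mul_inv_cancel_left]

end Pool.Agent.W_68f289_h51

end

section

/-!
If the hameomorphisms have countable index in the group of Hamiltonian homeomorphisms, then small
Hamiltonian homeomorphisms are quotients of end points of paths of small energy.
-/

open Set Metric Topology Filter Pool.Agent.W_MP_68f289_gt Pool.Agent.W_68f289_h35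
open scoped NNReal ContDiff

namespace Pool.Agent.W_68f289_h51

variable {n : ℕ} {r : ℝ} {K : Set (E n)} {H : ℕ → ℝ → E n → ℝ} {ψ : ℕ → ℝ → E n → E n}
  {Φ : Icc (0 : ℝ) 1 → (E n ≃ₜ E n)}

/-- Let `H` be a closed subgroup of a Polish group `Γ`, and let `B` be a non-meagre subset of `H`
which is covered by countably many translates of a continuous image `A` of a Polish space. Then a
neighbourhood of the identity in `H` consists of elements of `A⁻¹ A`. -/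
theorem baire_part {Γ P : Type*} [Group Γ] [TopologicalSpace Γ] [IsTopologicalGroup Γ]
    [PolishSpace Γ] [TopologicalSpace P] [PolishSpace P] {s : P → Γ} (hs : Continuous s)
    (H : Subgroup Γ) (hH : IsClosed (H : Set Γ)) (B : Set H) (hB : ¬ IsMeagre B) (T : Set Γ)
    (hT : T.Countable) (hcov : ∀ h ∈ B, ∃ t ∈ T, ∃ p : P, (h : Γ) = t * s p) :
    ∃ U ∈ 𝓝 (1 : Γ), ∀ u ∈ U, u ∈ H → ∃ p q : P, u = (s p)⁻¹ * s q := by
  have hHp : PolishSpace H := hH.polishSpace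
  have hHb : BaireSpace H := by
    let _ := TopologicalSpace.upgradeIsCompletelyMetrizable H
    infer_instance
  have hTc : Countable T := hT.to_subtype
  set A : T → Set H := fun j => {h : H | ∃ p : P, (h : Γ) = (j : Γ) * s p} with hA
  have hex : ∃ j, ¬ IsMeagre (A j) := by
    by_contra hcon
    push Not at hcon
    refine hB ((isMeagre_iUnion hcon).mono fun h hh => ?_)
    obtain ⟨t, ht, p, hp⟩ := hcov h hh
    rw [mem_iUnion]
    exact ⟨⟨t, ht⟩, p, hp⟩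
  obtain ⟨t, hj⟩ := hex
  set Q : Set P := {p | (t : Γ) * s p ∈ H} with hQ
  have hQc : IsClosed Q := hH.preimage (continuous_const.mul hs)
  have hQp : PolishSpace Q := hQc.polishSpace
  set f : Q → H := fun p => (⟨(t : Γ) * s p.1, p.2⟩ : H)⁻¹ with hf
  have hfc : Continuous f :=
    (((continuous_const.mul (hs.comp continuous_subtype_val)).subtype_mk _)).inv
  have hfr : range f = (fun h : H => h⁻¹) '' A t := by
    ext h
    constructor
    · rintro ⟨p, rfl⟩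
      exact ⟨⟨(t : Γ) * s p.1, p.2⟩, ⟨p.1, rfl⟩, rfl⟩
    · rintro ⟨h', ⟨p, hp⟩, rfl⟩
      refine ⟨⟨p, ?_⟩, ?_⟩
      · change (t : Γ) * s p ∈ H
        rw [← hp]; exact h'.2
      · exact congrArg (·⁻¹) (Subtype.ext hp.symm)
  obtain ⟨U, hU, hUw⟩ := pettis hfc (by
    rw [hfr]
    intro hcon
    apply hj
    have h6 : (fun h : H => h⁻¹) '' ((fun h : H => h⁻¹) '' A t) = A t := by
      rw [image_image]
      simp
    rw [← h6]
    exact (Homeomorph.inv H).isInducing.isMeagre_image hcon)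
  obtain ⟨V, hV, hVU⟩ := mem_nhds_induced (Subtype.val : H → Γ) 1 U |>.1 hU
  refine ⟨V, hV, fun u hu huH => ?_⟩
  obtain ⟨p, q, hpq⟩ := hUw ⟨u, huH⟩ (hVU hu)
  have hpq' : u = ((t : Γ) * s p.1)⁻¹ * (((t : Γ) * s q.1)⁻¹)⁻¹ := congrArg Subtype.val hpq
  refine ⟨p.1, q.1, ?_⟩
  rw [hpq']
  group

/-- a closed subgroup is not a countable union of meagre sets -/
lemma exists_nonmeagre {Γ ι : Type*} [Group Γ] [TopologicalSpace Γ]
    [PolishSpace Γ] [Countable ι] (H : Subgroup Γ) (hH : IsClosed (H : Set Γ)) (B : ι → Set H)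
    (hcov : ∀ h : H, ∃ i, h ∈ B i) : ∃ i, ¬ IsMeagre (B i) := by
  have hHp : PolishSpace H := hH.polishSpace
  have hHb : BaireSpace H := by
    let _ := TopologicalSpace.upgradeIsCompletelyMetrizable H
    infer_instance
  by_contra hcon
  push Not at hcon
  have h1 : IsMeagre (⋃ j, B j) := isMeagre_iUnion hcon
  have h2 : (⋃ j, B j) = univ := by
    rw [eq_univ_iff_forall]
    intro h
    rw [mem_iUnion]
    exact hcov h
  rw [h2] at h1
  have : (∅ : Set H).Nonempty := by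
    have h5 : Dense (univ : Set H)ᶜ := dense_of_mem_residual h1
    rw [compl_univ] at h5
    exact h5.nonempty
  exact this.ne_empty rfl

lemma TPath.mono {K' : Set (E n)} (h : TPath n K H ψ Φ) (hc : IsCompact K') (hB : K' ⊆ Bl n)
    (hK : K ⊆ K') : TPath n K' H ψ Φ :=
  ⟨hc, hB, h.iso, fun k t x hx => h.supp k t x fun h' => hx (hK h'), h.cauchy, h.conv⟩

/-- the hameomorphisms inside of the group of Hamiltonian homeomorphisms -/
def HS (n : ℕ) : Subgroup (G n) := (Hameo n).subgroupOf (HamBar n)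

lemma exists_Rm_ge {K : Set (E n)} (hK : IsCompact K) (hKB : K ⊆ Bl n) :
    ∃ m : ℕ, K ⊆ CB n (Rm m) := by
  obtain ⟨r, hr0, hr1, hKr⟩ := exists_CB hK hKB
  obtain ⟨m, hm⟩ := exists_nat_gt (1 / (1 - r))
  refine ⟨m, hKr.trans (CB_mono hr0.le ?_)⟩
  have h1 : 0 < 1 - r := by linarith
  rw [div_lt_iff₀ h1] at hm
  unfold Rm
  have h2 : 1 / ((m : ℝ) + 2) ≤ 1 - r := by
    rw [div_le_iff₀ (by positivity)]
    nlinarith
  linarith

theorem small_of_countable (hc : Countable (G n ⧸ HS n)) {R : ℝ} (hR0 : 0 ≤ R) (hR1 : R < 1) :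
    ∃ m : ℕ, ∀ d : ℕ → SP n (Rm m), Dns d → ∀ δ : ℝ, 0 < δ → ∃ ε > 0, ∀ g ∈ Gn n R,
      (∀ x : E n, dist (g • x) x < ε) → ∃ a b : FS d (2 * δ),
        g = (ep (Rm_pos m) (Rm_lt m) a)⁻¹ * ep (Rm_pos m) (Rm_lt m) b := by
  obtain ⟨T, hT, hTc⟩ := exists_reps hc R
  set Hs : Subgroup (HG (Zn n)) := (Gn n R).map res with hHs
  have hHcl : IsClosed (Hs : Set (HG (Zn n))) := closed_Gn hR0 hR1
  set B : ℕ → Set Hs := fun m => {h : Hs | ∃ t ∈ T, ∃ H ψ Φ, TPath n (CB n (Rm m)) H ψ Φ ∧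
    ∃ g : G n, (g : E n ≃ₜ E n) = endp Φ ∧ (h : HG (Zn n)) = res t * res g} with hB
  obtain ⟨m, hm⟩ := exists_nonmeagre Hs hHcl B (by
    rintro ⟨_, h, hh, rfl⟩
    obtain ⟨t, htT, ht, htF⟩ := hTc h hh
    obtain ⟨K, H, ψ, Φ, h1, h2⟩ := exists_TPath (⟨_, htF⟩ : Hm n)
    obtain ⟨m, hm⟩ := exists_Rm_ge h1.comp h1.sub
    refine ⟨m, t, htT, H, ψ, Φ, TPath.mono h1 (isCompact_CB _) (CB_sub (Rm_pos m) (Rm_lt m)) hm,
      t⁻¹ * h, h2.symm, ?_⟩
    rw [map_mul, map_inv, mul_inv_cancel_left])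
  refine ⟨m, fun d hd δ hδ => ?_⟩
  set T' : Set (HG (Zn n)) := image2 (fun (t : G n) (i : ℕ) => res t * res (d i).bs) T univ
    with hT'
  have hT'c : T'.Countable := hT.image2 countable_univ _
  obtain ⟨U, hU, hw⟩ := baire_part (ep_cont (Rm_pos m) (Rm_lt m) d (2 * δ)) Hs hHcl (B m) hm T'
    hT'c (by
      rintro h ⟨t, ht, H, ψ, Φ, hp, g, hg, hh⟩
      obtain ⟨i, a, ha⟩ := cover (Rm_pos m) (Rm_lt m) hd hp hδ
      refine ⟨res t * res (d i).bs, ⟨t, ht, i, trivial, rfl⟩, a, ?_⟩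
      have e : g = (d i).bs * ep (Rm_pos m) (Rm_lt m) a := Subtype.ext (hg.trans ha)
      rw [hh, e, map_mul, mul_assoc])
  obtain ⟨ε, hε, h1⟩ := HG.small_mem_nhds hU
  refine ⟨ε, hε, fun g hg hgs => ?_⟩
  obtain ⟨p, q, hpq⟩ := hw (res g) (h1 _ fun z => hgs z) ⟨g, hg, rfl⟩
  refine ⟨p, q, ?_⟩
  apply res_inj
  rw [map_mul, map_inv]
  exact hpq

end Pool.Agent.W_68f289_h51

end
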