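import Pool.Agent.W_68f289_h35m.Stmt

section

/-!
Definitions used in the statement of the energy criterion.
-/

open Set Metric Topology Pool.Agent.W_MP_68f289_gt Pool.Agent.W_68f289_h35

namespace Pool.Agent.W_68f289_h51

/-- homeomorphisms generated with small energy: end points of topological Hamiltonian paths with
support in `K`, of Hofer length at most `δ`, all of whose maps move all points by at most `δ` -/
def Small (n : ℕ) (K : Set (E n)) (δ : ℝ) : Set (E n ≃ₜ E n) :=
  {u | ∃ H ψ Φ, TPath n K H ψ Φ ∧ endp Φ = u ∧ (∀ k, hofer (H k) ≤ δ) ∧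
    ∀ (t : Icc (0 : ℝ) 1) (x : E n), dist (Φ t x) x ≤ δ}

/-- the energy estimate: for every `R < 1` there is `R' < 1` such that for every `δ > 0` there
is `ε > 0` such that all Hamiltonian diffeomorphisms supported in the closed ball of radius `R` which
move all points by less than `ε` are generated, in the closed ball of radius `R'`, with energy
at most `δ` -/
def EnergyEst (n : ℕ) : Prop :=
  ∀ R : ℝ, 0 < R → R < 1 → ∃ R' : ℝ, 0 < R' ∧ R' < 1 ∧ ∀ δ : ℝ, 0 < δ → ∃ ε > 0,
    ∀ u : E n ≃ₜ E n, IsHam n u → (∀ x, x ∉ CB n R → u x = x) → (∀ x, dist (u x) x < ε) →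
      u ∈ Small n (CB n R') δ

end Pool.Agent.W_68f289_h51

end
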