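import Pool.Agent.W_68f289_h51m.Pa
import Pool.Agent.W_68f289_h51m.Es

section

/-!
Products and inverses of homeomorphisms generated with small energy.
-/

open Set Metric Topology Filter Pool.Agent.W_MP_68f289_gt Pool.Agent.W_68f289_h35
open scoped NNReal ContDiff

namespace Pool.Agent.W_68f289_h51

open Pool.Agent.W_68f289_t6 (r1 r2 r1_one r2_one conc concf conc_iso rev revf rev_iso exists_homeo)

variable {n : ℕ} {r : ℝ} {K K' : Set (E n)} {H H' : ℕ → ℝ → E n → ℝ} {ψ ψ' : ℕ → ℝ → E n → E n}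
  {Φ Φ' : Icc (0 : ℝ) 1 → (E n ≃ₜ E n)}

lemma mul_path (h : TPath n K H ψ Φ) (h' : TPath n K H' ψ' Φ') :
    TPath n K (fun k => conc (H' k) (H k)) (fun k => concf (ψ' k) (ψ k))
      (fun t => Φ ⟨r2 t, r2_mem t⟩ * Φ' ⟨r1 t, r1_mem t⟩) := by
  refine ⟨h.comp, h.sub, fun k => conc_iso (h'.iso k) (h.iso k), fun k t x hx => ?_, ?_, ?_⟩
  · unfold conc
    rw [h.supp _ _ _ hx, h'.supp _ _ _ hx]; ring
  · intro ε hε
    obtain ⟨N, hN⟩ := h.cauchy (ε / 2) (half_pos hε)
    obtain ⟨N', hN'⟩ := h'.cauchy (ε / 2) (half_pos hε)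
    refine ⟨max N N', fun j k hj hk => ?_⟩
    have e : (fun (t : ℝ) (x : E n) => conc (H' j) (H j) t x - conc (H' k) (H k) t x) =
        conc (fun t x => H' j t x - H' k t x) (fun t x => H j t x - H k t x) := by
      funext t x
      unfold conc
      ring
    rw [e]
    have hc : ∀ k, Continuous (Function.uncurry (H k)) := fun k => (h.iso k).smooth.continuous
    have hc' : ∀ k, Continuous (Function.uncurry (H' k)) := fun k => (h'.iso k).smooth.continuous
    have h1 := hofer_conc_le (H := fun t x => H' j t x - H' k t x)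
      (H' := fun t x => H j t x - H k t x) (K := K) ((hc' j).sub (hc' k))
      ((hc j).sub (hc k)) h.comp
      (fun t x hx => by rw [h'.supp _ _ _ hx, h'.supp _ _ _ hx, sub_self])
      (fun t x hx => by rw [h.supp _ _ _ hx, h.supp _ _ _ hx, sub_self])
    have h2 := hN j k ((le_max_left _ _).trans hj) ((le_max_left _ _).trans hk)
    have h3 := hN' j k ((le_max_right _ _).trans hj) ((le_max_right _ _).trans hk)
    linarith
  · intro ε hε
    obtain ⟨δ, hδ, hu⟩ := h.unif (half_pos hε)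
    obtain ⟨N, hN⟩ := h.conv (ε / 2) (half_pos hε)
    obtain ⟨N', hN'⟩ := h'.conv δ hδ
    refine ⟨max N N', fun k hk t x => ?_⟩
    have h1 := hN k ((le_max_left _ _).trans hk) ⟨r2 t, r2_mem t⟩ (ψ' k (r1 t) x)
    have h2 := hN' k ((le_max_right _ _).trans hk) ⟨r1 t, r1_mem t⟩ x
    have h3 := hu ⟨r2 t, r2_mem t⟩ ⟨r2 t, r2_mem t⟩ (by simpa using hδ) _ _ h2
    calc dist (ψ k (r2 t) (ψ' k (r1 t) x)) (Φ ⟨r2 t, r2_mem t⟩ (Φ' ⟨r1 t, r1_mem t⟩ x)) ≤ _ :=
          dist_triangle _ _ _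
      _ < ε / 2 + ε / 2 := add_lt_add h1 h3
      _ = ε := add_halves ε

lemma Small.mul {δ δ' : ℝ} {u v : E n ≃ₜ E n} (hu : u ∈ Small n K δ) (hv : v ∈ Small n K δ') :
    u * v ∈ Small n K (δ + δ') := by
  obtain ⟨H, ψ, Φ, h1, h2, h3, h4⟩ := hu
  obtain ⟨H', ψ', Φ', h1', h2', h3', h4'⟩ := hv
  refine ⟨_, _, _, mul_path h1 h1', ?_, fun k => ?_, fun t x => ?_⟩
  · rw [← h2, ← h2']
    change Φ ⟨r2 1, r2_mem 1⟩ * Φ' ⟨r1 1, r1_mem 1⟩ = Φ ⟨1, _⟩ * Φ' ⟨1, _⟩
    have e1 : (⟨r2 1, r2_mem 1⟩ : Icc (0 : ℝ) 1) = ⟨1, by simp⟩ := Subtype.ext r2_one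
    have e2 : (⟨r1 1, r1_mem 1⟩ : Icc (0 : ℝ) 1) = ⟨1, by simp⟩ := Subtype.ext r1_one
    rw [e1, e2]
  · have h5 := hofer_conc_le (h1'.iso k).smooth.continuous (h1.iso k).smooth.continuous h1.comp
      (h1'.supp k) (h1.supp k)
    linarith [h3 k, h3' k]
  · change dist (Φ ⟨r2 t, r2_mem t⟩ (Φ' ⟨r1 t, r1_mem t⟩ x)) x ≤ δ + δ'
    have h5 := h4 ⟨r2 t, r2_mem t⟩ (Φ' ⟨r1 t, r1_mem t⟩ x)
    have h6 := h4' ⟨r1 t, r1_mem t⟩ x
    have h7 := dist_triangle (Φ ⟨r2 t, r2_mem t⟩ (Φ' ⟨r1 t, r1_mem t⟩ x)) (Φ' ⟨r1 t, r1_mem t⟩ x) x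
    linarith

lemma one_sub_mem (t : Icc (0 : ℝ) 1) : 1 - (t : ℝ) ∈ Icc (0 : ℝ) 1 :=
  ⟨by linarith [t.2.2], by linarith [t.2.1]⟩

lemma inv_path (h : TPath n K H ψ Φ) {u : ℕ → (E n ≃ₜ E n)} (hu1 : ∀ k x, u k x = ψ k 1 x) :
    TPath n K (fun k => rev (H k)) (fun k => revf (u k) (ψ k))
      (fun t => Φ ⟨1 - t, one_sub_mem t⟩ * (endp Φ)⁻¹) := by
  have hoff : ∀ x, x ∉ K → endp Φ x = x := fun x hx => h.off _ hx
  refine ⟨h.comp, h.sub, fun k => rev_iso (h.iso k) (hu1 k), fun k t x hx => ?_, ?_, ?_⟩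
  · unfold rev
    rw [h.supp _ _ _ hx, mul_zero]
  · intro ε hε
    obtain ⟨N, hN⟩ := h.cauchy ε hε
    refine ⟨N, fun j k hj hk => ?_⟩
    have e : (fun (t : ℝ) (x : E n) => rev (H j) t x - rev (H k) t x) =
        fun t x => (fun (t : ℝ) (x : E n) => H k t x - H j t x) (1 - t) x := by
      funext t x
      unfold rev
      ring
    rw [e, hofer_reverse (fun (t : ℝ) (x : E n) => H k t x - H j t x)]
    exact hN k j hk hj
  · intro ε hε
    obtain ⟨δ, hδ, hun⟩ := h.unif (half_pos hε)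
    obtain ⟨N, hN⟩ := h.conv (ε / 2) (half_pos hε)
    obtain ⟨η, hη, hinv⟩ := inv_conv h.comp hoff hδ
    obtain ⟨N', hN'⟩ := h.conv η hη
    refine ⟨max N N', fun k hk t x => ?_⟩
    have h1 := hN k ((le_max_left _ _).trans hk) ⟨1 - t, one_sub_mem t⟩ ((u k).symm x)
    have h2 := hinv (u k) (fun y => by
      rw [hu1]
      exact hN' k ((le_max_right _ _).trans hk) ⟨1, by simp⟩ y) x
    have h3 := hun ⟨1 - t, one_sub_mem t⟩ ⟨1 - t, one_sub_mem t⟩ (by simpa using hδ) _ _ h2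
    calc dist (ψ k (1 - t) ((u k).symm x)) (Φ ⟨1 - t, one_sub_mem t⟩ ((endp Φ).symm x)) ≤ _ :=
          dist_triangle _ _ _
      _ < ε / 2 + ε / 2 := add_lt_add h1 h3
      _ = ε := add_halves ε

lemma Small.inv {δ : ℝ} {u : E n ≃ₜ E n} (hu : u ∈ Small n K δ) : u⁻¹ ∈ Small n K (2 * δ) := by
  obtain ⟨H, ψ, Φ, h1, h2, h3, h4⟩ := hu
  choose v _ hv1 using fun k => exists_homeo (h1.iso k)
  have hδ : 0 ≤ δ := dist_nonneg.trans (h4 ⟨0, by simp⟩ 0)
  refine ⟨_, _, _, inv_path h1 hv1, ?_, fun k => ?_, fun t x => ?_⟩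
  · rw [← h2]
    change Φ ⟨1 - 1, _⟩ * (endp Φ)⁻¹ = _
    have e1 : (⟨1 - (1 : ℝ), one_sub_mem ⟨1, by simp⟩⟩ : Icc (0 : ℝ) 1) = ⟨0, by simp⟩ :=
      Subtype.ext (sub_self _)
    have e2 : Φ ⟨0, by simp⟩ = 1 := by
      ext x : 1
      rw [h1.zero x]; rfl
    rw [e1, e2, one_mul]
  · have e : rev (H k) = fun t x => (fun (t : ℝ) (x : E n) => -1 * H k t x) (1 - t) x := rfl
    have hb : ∀ t, Bd (H k t) := fun t =>
      bd_of_supp (h1.iso k).smooth.continuous h1.comp (h1.supp k) t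
    rw [e, hofer_reverse (fun (t : ℝ) (x : E n) => -1 * H k t x), hofer_const_mul hb]
    have := h3 k
    simp only [abs_neg, abs_one, one_mul]
    linarith
  · change dist (Φ ⟨1 - t, one_sub_mem t⟩ ((endp Φ).symm x)) x ≤ 2 * δ
    have h5 := h4 ⟨1 - t, one_sub_mem t⟩ ((endp Φ).symm x)
    have h6 := h4 ⟨1, by simp⟩ ((endp Φ).symm x)
    have e : Φ ⟨1, by simp⟩ ((endp Φ).symm x) = x := (endp Φ).apply_symm_apply x
    rw [e] at h6
    have h7 := dist_triangle_right (Φ ⟨1 - t, one_sub_mem t⟩ ((endp Φ).symm x)) x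
      ((endp Φ).symm x)
    linarith

end Pool.Agent.W_68f289_h51

end

section

/-!
Appending a topological Hamiltonian path to another one in a prescribed time interval.
-/

open Set Metric Topology Filter Pool.Agent.W_MP_68f289_gt Pool.Agent.W_68f289_h35
open scoped NNReal ContDiff

namespace Pool.Agent.W_68f289_h51

variable {n : ℕ} {K : Set (E n)}

/-- reparametrisation of time: `0` for `t ≤ 1 - 2^{-N}`, and `1` for `t ≥ 1 - 2^{-N-1}` -/
noncomputable def tau (N : ℕ) (t : ℝ) : ℝ := th (2 ^ (N + 1) * t - (2 ^ (N + 1) - 2))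

lemma tau_smooth (N : ℕ) : ContDiff ℝ ((⊤ : ℕ∞) : WithTop ℕ∞) (tau N) := th_comp_smooth _ _

lemma tau_mem (N : ℕ) (t : ℝ) : tau N t ∈ Icc (0 : ℝ) 1 :=
  ⟨Real.smoothTransition.nonneg _, Real.smoothTransition.le_one _⟩

lemma tau_mono (N : ℕ) : Monotone (tau N) := by
  intro s t h
  apply th_monotone
  have : (0 : ℝ) < 2 ^ (N + 1) := by positivity
  nlinarith

lemma tau_deriv_nonneg (N : ℕ) (t : ℝ) : 0 ≤ deriv (tau N) t := (tau_mono N).deriv_nonneg

lemma tau_zero_of_le {N : ℕ} {t : ℝ} (h : t ≤ 1 - (1 / 2) ^ N) : tau N t = 0 := by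
  apply Real.smoothTransition.zero_of_nonpos
  have h1 : (0 : ℝ) < 2 ^ (N + 1) := by positivity
  have h2 : (2 : ℝ) ^ (N + 1) * (1 / 2) ^ N = 2 := by
    rw [pow_succ, mul_assoc, mul_comm (2 : ℝ), ← mul_assoc, ← mul_pow]; norm_num
  nlinarith

lemma tau_one_of_le {N : ℕ} {t : ℝ} (h : 1 - (1 / 2) ^ (N + 1) ≤ t) : tau N t = 1 := by
  apply Real.smoothTransition.one_of_one_le
  have h1 : (0 : ℝ) < 2 ^ (N + 1) := by positivity
  have h2 : (2 : ℝ) ^ (N + 1) * (1 / 2) ^ (N + 1) = 1 := by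
    rw [← mul_pow]; norm_num
  nlinarith

lemma tau_zero (N : ℕ) : tau N 0 = 0 := tau_zero_of_le (by
  have : ((1 : ℝ) / 2) ^ N ≤ 1 := pow_le_one₀ (by norm_num) (by norm_num)
  linarith)

lemma tau_one (N : ℕ) : tau N 1 = 1 := tau_one_of_le (by
  have : (0 : ℝ) < (1 / 2) ^ (N + 1) := by positivity
  linarith)

lemma tau_deriv_late {N : ℕ} {t : ℝ} (h : 1 - (1 / 2) ^ (N + 1) ≤ t) : deriv (tau N) t = 0 := by
  apply IsLocalMax.deriv_eq_zero
  refine Filter.Eventually.of_forall fun s => ?_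
  change tau N s ≤ tau N t
  rw [tau_one_of_le h]
  exact (tau_mem N s).2

/-- topological Hamiltonian paths which stop at the time `1 - 2^{-N}` -/
structure Seg (n : ℕ) (K : Set (E n)) (N : ℕ) where
  H : ℕ → ℝ → E n → ℝ
  ψ : ℕ → ℝ → E n → E n
  Φ : Icc (0 : ℝ) 1 → (E n ≃ₜ E n)
  path : TPath n K H ψ Φ
  late : ∀ k t x, 1 - (1 / 2) ^ N ≤ t → H k t x = 0

/-- the relation between consecutive paths -/
structure Rel (w : E n ≃ₜ E n) (δ : ℝ) {N : ℕ} (X : Seg n K N) (Y : Seg n K (N + 1)) : Prop where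
  hof : ∀ k, hofer (fun t x => Y.H k t x - X.H k t x) ≤ δ
  dst : ∀ t x, dist (Y.Φ t x) (X.Φ t x) ≤ δ
  eq : ∀ t : Icc (0 : ℝ) 1, (t : ℝ) ≤ 1 - (1 / 2) ^ N → Y.Φ t = X.Φ t
  end_eq : endp Y.Φ = w * endp X.Φ

/-- the Hamiltonian of the appended path -/
noncomputable def appH (N : ℕ) (H A : ℝ → E n → ℝ) : ℝ → E n → ℝ :=
  fun t x => deriv (tau N) t * A (tau N t) x + H t x

lemma app_iso {N : ℕ} {H A : ℝ → E n → ℝ} {ψ a : ℝ → E n → E n} (h : HIso n H ψ)
    (hA : HIso n A a) (late : ∀ t x, 1 - (1 / 2) ^ N ≤ t → H t x = 0) :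
    HIso n (appH N H A) (fun t x => a (tau N t) (ψ t x)) := by
  have h1 := HIso.reparam hA (tau_smooth N)
  have hinv0 : ∀ x, HIso.inv hA (tau N 0) x = x := by
    intro x
    rw [tau_zero]
    have := HIso.inv_apply hA 0 x
    rwa [hA.zero] at this
  have e1 : (fun (t : ℝ) (x : E n) => a (tau N t) (HIso.inv hA (tau N 0) x)) =
      fun t x => a (tau N t) x := by
    funext t x
    rw [hinv0]
  rw [e1] at h1
  have h2 := HIso.comp h1 h
  have e2 : (fun (t : ℝ) (x : E n) => deriv (tau N) t * A (tau N t) x + H t (HIso.inv h1 t x)) =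
      appH N H A := by
    funext t x
    unfold appH
    congr 1
    rcases le_total t (1 - (1 / 2) ^ N) with ht | ht
    · have h3 := HIso.inv_apply h1 t x
      rw [tau_zero_of_le ht, hA.zero] at h3
      rw [h3]
    · rw [late t _ ht, late t _ ht]
  rw [e2] at h2
  exact h2

lemma hofer_app_le {N : ℕ} {H A : ℝ → E n → ℝ} (hH : Continuous (Function.uncurry H))
    (hA : Continuous (Function.uncurry A)) (hc : IsCompact K)
    (hK : ∀ t, ∀ x, x ∉ K → H t x = 0) (hK' : ∀ t, ∀ x, x ∉ K → A t x = 0) :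
    hofer (appH N H A) ≤ hofer A + hofer H := by
  have hr : Continuous (deriv (tau N)) := (contDiff_infty_iff_deriv.1 (tau_smooth N)).2.continuous
  have h1 : Continuous (Function.uncurry fun (t : ℝ) (x : E n) =>
      deriv (tau N) t * A (tau N t) x) :=
    (hr.comp continuous_fst).mul
      (hA.comp (((tau_smooth N).continuous.comp continuous_fst).prodMk continuous_snd))
  refine (hofer_add_le h1 hH hc (fun t x hx => by rw [hK' _ x hx, mul_zero]) hK).trans
    (add_le_add ?_ le_rfl)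
  exact hofer_reparam_le hA hc hK' (tau_smooth N) (tau_deriv_nonneg N) (tau_mem N 0).1
    (tau_mem N 1).2

theorem exists_step {N : ℕ} (X : Seg n K N) {w : E n ≃ₜ E n} {δ : ℝ} (hw : w ∈ Small n K δ) :
    ∃ Y : Seg n K (N + 1), Rel w δ X Y := by
  obtain ⟨A, a, Ψ, h1, h2, h3, h4⟩ := hw
  have hX := X.path
  have hcX : ∀ k, Continuous (Function.uncurry (X.H k)) := fun k => (hX.iso k).smooth.continuous
  have hcA : ∀ k, Continuous (Function.uncurry (A k)) := fun k => (h1.iso k).smooth.continuous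
  have hpath : TPath n K (fun k => appH N (X.H k) (A k))
      (fun k t x => a k (tau N t) (X.ψ k t x))
      (fun t => Ψ ⟨tau N t, tau_mem N t⟩ * X.Φ t) := by
    refine ⟨hX.comp, hX.sub, fun k => app_iso (hX.iso k) (h1.iso k) fun t x ht => X.late k t x ht,
      fun k t x hx => ?_, fun ε hε => ?_, fun ε hε => ?_⟩
    · unfold appH
      rw [hX.supp _ _ _ hx, h1.supp _ _ _ hx, mul_zero, add_zero]
    · obtain ⟨N1, hN1⟩ := hX.cauchy (ε / 2) (half_pos hε)
      obtain ⟨N2, hN2⟩ := h1.cauchy (ε / 2) (half_pos hε)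
      refine ⟨max N1 N2, fun j k hj hk => ?_⟩
      have e : (fun (t : ℝ) (x : E n) => appH N (X.H j) (A j) t x - appH N (X.H k) (A k) t x) =
          appH N (fun t x => X.H j t x - X.H k t x) (fun t x => A j t x - A k t x) := by
        funext t x
        unfold appH
        ring
      rw [e]
      have h5 := hofer_app_le (N := N) (H := fun t x => X.H j t x - X.H k t x)
        (A := fun t x => A j t x - A k t x) ((hcX j).sub (hcX k)) ((hcA j).sub (hcA k)) hX.comp
        (fun t x hx => by rw [hX.supp _ _ _ hx, hX.supp _ _ _ hx, sub_self])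
        (fun t x hx => by rw [h1.supp _ _ _ hx, h1.supp _ _ _ hx, sub_self])
      have h6 := hN1 j k ((le_max_left _ _).trans hj) ((le_max_left _ _).trans hk)
      have h7 := hN2 j k ((le_max_right _ _).trans hj) ((le_max_right _ _).trans hk)
      linarith
    · obtain ⟨η, hη, hu⟩ := h1.unif (half_pos hε)
      obtain ⟨N1, hN1⟩ := h1.conv (ε / 2) (half_pos hε)
      obtain ⟨N2, hN2⟩ := hX.conv η hη
      refine ⟨max N1 N2, fun k hk t x => ?_⟩
      have h5 := hN1 k ((le_max_left _ _).trans hk) ⟨tau N t, tau_mem N t⟩ (X.ψ k t x)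
      have h6 := hN2 k ((le_max_right _ _).trans hk) t x
      have h7 := hu ⟨tau N t, tau_mem N t⟩ ⟨tau N t, tau_mem N t⟩ (by simpa using hη) _ _ h6
      calc dist (a k (tau N t) (X.ψ k t x)) (Ψ ⟨tau N t, tau_mem N t⟩ (X.Φ t x)) ≤ _ :=
            dist_triangle _ _ _
        _ < ε / 2 + ε / 2 := add_lt_add h5 h7
        _ = ε := add_halves ε
  refine ⟨⟨_, _, _, hpath, fun k t x ht => ?_⟩, ⟨fun k => ?_, fun t x => ?_, fun t ht => ?_, ?_⟩⟩
  · unfold appH
    rw [tau_deriv_late ht, X.late k t x, zero_mul, add_zero]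
    have : ((1 : ℝ) / 2) ^ (N + 1) ≤ (1 / 2) ^ N :=
      pow_le_pow_of_le_one (by norm_num) (by norm_num) (Nat.le_succ N)
    linarith
  · have e : (fun (t : ℝ) (x : E n) => appH N (X.H k) (A k) t x - X.H k t x) =
        fun t x => deriv (tau N) t * A k (tau N t) x := by
      funext t x
      unfold appH
      ring
    change hofer (fun (t : ℝ) (x : E n) => appH N (X.H k) (A k) t x - X.H k t x) ≤ δ
    rw [e]
    exact (hofer_reparam_le (hcA k) h1.comp (h1.supp k) (tau_smooth N) (tau_deriv_nonneg N)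
      (tau_mem N 0).1 (tau_mem N 1).2).trans (h3 k)
  · exact h4 _ _
  · change Ψ ⟨tau N t, tau_mem N t⟩ * X.Φ t = X.Φ t
    have e1 : (⟨tau N t, tau_mem N t⟩ : Icc (0 : ℝ) 1) = ⟨0, by simp⟩ :=
      Subtype.ext (tau_zero_of_le ht)
    have e2 : Ψ ⟨0, by simp⟩ = 1 := by
      ext x : 1
      rw [h1.zero x]; rfl
    rw [e1, e2, one_mul]
  · change Ψ ⟨tau N 1, tau_mem N 1⟩ * endp X.Φ = w * endp X.Φ
    have e1 : (⟨tau N 1, tau_mem N 1⟩ : Icc (0 : ℝ) 1) = ⟨1, by simp⟩ :=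
      Subtype.ext (tau_one N)
    rw [e1, ← h2]
    rfl

end Pool.Agent.W_68f289_h51

end

section

/-!
Limits of topological Hamiltonian paths, infinite products of homeomorphisms generated with small
energy, and the converse implication of the energy criterion.
-/

open Set Metric Topology Filter Pool.Agent.W_MP_68f289_gt Pool.Agent.W_68f289_h35
open scoped NNReal ContDiff

namespace Pool.Agent.W_68f289_h51

variable {n : ℕ} {K : Set (E n)}

/-- limits of topological Hamiltonian paths -/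
theorem path_lim {H : ℕ → ℕ → ℝ → E n → ℝ} {ψ : ℕ → ℕ → ℝ → E n → E n}
    {Φ : ℕ → Icc (0 : ℝ) 1 → (E n ≃ₜ E n)} (h : ∀ N, TPath n K (H N) (ψ N) (Φ N))
    (hH : ∀ ε : ℝ, 0 < ε → ∃ N₀, ∀ N ≥ N₀, ∀ M ≥ N₀, ∀ k,
      hofer (fun t x => H N k t x - H M k t x) ≤ ε)
    {Ψ : Icc (0 : ℝ) 1 → (E n ≃ₜ E n)}
    (hΨ : ∀ ε : ℝ, 0 < ε → ∃ N₀, ∀ N ≥ N₀, ∀ t x, dist (Φ N t x) (Ψ t x) ≤ ε) :
    ∃ H' ψ', TPath n K H' ψ' Ψ := by
  have hpos : ∀ N : ℕ, (0 : ℝ) < (1 / 2) ^ N := fun N => by positivity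
  choose k1 hk1 using fun N => (h N).cauchy ((1 / 2) ^ N) (hpos N)
  choose k2 hk2 using fun N => (h N).conv ((1 / 2) ^ N) (hpos N)
  set κ : ℕ → ℕ := fun N => max (k1 N) (k2 N) with hκ
  have hc : ∀ N k, Continuous (Function.uncurry (H N k)) := fun N k =>
    ((h N).iso k).smooth.continuous
  have hsm : ∀ ε : ℝ, 0 < ε → ∃ N₀ : ℕ, ∀ N ≥ N₀, ((1 : ℝ) / 2) ^ N < ε := by
    intro ε hε
    obtain ⟨N₀, hN₀⟩ := exists_pow_lt_of_lt_one hε (show (1 : ℝ) / 2 < 1 by norm_num)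
    exact ⟨N₀, fun N hN => (pow_le_pow_of_le_one (by norm_num) (by norm_num) hN).trans_lt hN₀⟩
  have tri : ∀ (N j M k : ℕ) (P : ℕ) (i : ℕ), hofer (fun t x => H N j t x - H M k t x) ≤
      hofer (fun t x => H N j t x - H P i t x) + hofer (fun t x => H P i t x - H M k t x) := by
    intro N j M k P i
    have h1 := hofer_add_le (H := fun t x => H N j t x - H P i t x)
      (H' := fun t x => H P i t x - H M k t x)
      ((hc N j).sub (hc P i)) ((hc P i).sub (hc M k)) (h 0).comp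
      (fun t x hx => by rw [(h N).supp j t x hx, (h P).supp i t x hx, sub_self])
      (fun t x hx => by rw [(h P).supp i t x hx, (h M).supp k t x hx, sub_self])
    have e : (fun (t : ℝ) (x : E n) => H N j t x - H P i t x + (H P i t x - H M k t x)) =
        fun t x => H N j t x - H M k t x := by
      funext t x; ring
    rw [e] at h1
    exact h1
  refine ⟨fun N => H N (κ N), fun N => ψ N (κ N), ⟨(h 0).comp, (h 0).sub, fun N => (h N).iso _,
    fun N => (h N).supp _, fun ε hε => ?_, fun ε hε => ?_⟩⟩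
  · obtain ⟨N1, hN1⟩ := hH (ε / 4) (by positivity)
    obtain ⟨N2, hN2⟩ := hsm (ε / 4) (by positivity)
    refine ⟨max N1 N2, fun N M hN hM => ?_⟩
    set i := max (κ N) (κ M) with hi
    have h1 := tri N (κ N) M (κ M) N i
    have h2 := tri N i M (κ M) M i
    have h3 := hN1 N ((le_max_left _ _).trans hN) M ((le_max_left _ _).trans hM) i
    have h4 := hk1 N (κ N) i (le_max_left _ _) ((le_max_left _ _).trans (le_max_left _ _))
    have h5 := hk1 M i (κ M) ((le_max_left _ _).trans (le_max_right _ _)) (le_max_left _ _)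
    have h6 := hN2 N ((le_max_right _ _).trans hN)
    have h7 := hN2 M ((le_max_right _ _).trans hM)
    linarith
  · obtain ⟨N1, hN1⟩ := hΨ (ε / 2) (half_pos hε)
    obtain ⟨N2, hN2⟩ := hsm (ε / 2) (half_pos hε)
    refine ⟨max N1 N2, fun N hN t x => ?_⟩
    have h1 := hk2 N (κ N) (le_max_right _ _) t x
    have h2 := hN1 N ((le_max_left _ _).trans hN) t x
    have h3 := hN2 N ((le_max_right _ _).trans hN)
    have h4 := dist_triangle (ψ N (κ N) t x) (Φ N t x) (Ψ t x)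
    linarith

/-- the constant path -/
def seg0 (hc : IsCompact K) (hKB : K ⊆ Bl n) : Seg n K 0 where
  H := fun _ _ _ => 0
  ψ := fun _ _ x => x
  Φ := fun _ => 1
  path := ⟨hc, hKB, fun _ => (SP.zero n 0).iso, fun _ _ _ _ => rfl, fun ε hε => ⟨0, fun j k _ _ => by
      have e : (fun (t : ℝ) (x : E n) => (0 : ℝ) - 0) = fun _ _ => (0 : ℝ) := by
        funext t x; ring
      rw [e, hofer_eq]
      simpa [osc] using hε⟩, fun ε hε => ⟨0, fun k _ t x => by
      change dist x x < ε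
      rwa [dist_self]⟩⟩
  late := fun _ _ _ _ => rfl

/-- a sequence of consecutive paths -/
theorem exists_segs (hc : IsCompact K) (hKB : K ⊆ Bl n) {w : ℕ → (E n ≃ₜ E n)} {δ : ℕ → ℝ}
    (hw : ∀ N, w N ∈ Small n K (δ N)) :
    ∃ X : (N : ℕ) → Seg n K N, endp (X 0).Φ = 1 ∧ ∀ N, Rel (w N) (δ N) (X N) (X (N + 1)) := by
  choose f hf using fun (N : ℕ) (X : Seg n K N) => exists_step X (hw N)
  refine ⟨fun N => Nat.rec (motive := fun N => Seg n K N) (seg0 hc hKB) f N, rfl, fun N => ?_⟩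
  exact hf N _

/-- infinite products -/
theorem infinite_product (hc : IsCompact K) (hKB : K ⊆ Bl n) {w : ℕ → (E n ≃ₜ E n)}
    (hw : ∀ N, w N ∈ Small n K ((1 / 2) ^ N)) {v : ℕ → (E n ≃ₜ E n)} (hv0 : v 0 = 1)
    (hv : ∀ N, v (N + 1) = w N * v N) {g : E n ≃ₜ E n}
    (hg : ∀ ε : ℝ, 0 < ε → ∃ N₀ : ℕ, ∀ N ≥ N₀, ∀ x, dist (v N x) (g x) < ε) : g ∈ Hameo n := by
  classical
  obtain ⟨X, hX0, hX⟩ := exists_segs hc hKB hw
  have hend : ∀ N, endp (X N).Φ = v N := by
    intro N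
    induction N with
    | zero => rw [hX0, hv0]
    | succ N ih => rw [(hX N).end_eq, ih, hv]
  have hcX : ∀ N k, Continuous (Function.uncurry ((X N).H k)) := fun N k =>
    ((X N).path.iso k).smooth.continuous
  -- estimates
  have hH : ∀ N m k, hofer (fun t x => (X (N + m)).H k t x - (X N).H k t x) ≤
      2 * (1 / 2) ^ N - 2 * (1 / 2) ^ (N + m) := by
    intro N m k
    induction m with
    | zero =>
      have e : (fun (t : ℝ) (x : E n) => (X (N + 0)).H k t x - (X N).H k t x) =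
          fun _ _ => (0 : ℝ) := by
        funext t x; exact sub_self _
      rw [e, hofer_eq, add_zero, sub_self]
      simp [osc]
    | succ m ih =>
      have h1 := hofer_add_le (H := fun t x => (X (N + m + 1)).H k t x - (X (N + m)).H k t x)
        (H' := fun t x => (X (N + m)).H k t x - (X N).H k t x)
        ((hcX _ k).sub (hcX _ k)) ((hcX _ k).sub (hcX _ k)) hc
        (fun t x hx => by rw [(X _).path.supp k t x hx, (X _).path.supp k t x hx, sub_self])
        (fun t x hx => by rw [(X _).path.supp k t x hx, (X _).path.supp k t x hx, sub_self])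
      have e : (fun (t : ℝ) (x : E n) => (X (N + m + 1)).H k t x - (X (N + m)).H k t x +
          ((X (N + m)).H k t x - (X N).H k t x)) =
          fun t x => (X (N + (m + 1))).H k t x - (X N).H k t x := by
        funext t x
        change _ = (X (N + m + 1)).H k t x - (X N).H k t x
        ring
      rw [e] at h1
      have h2 := (hX (N + m)).hof k
      have h3 : ((1 : ℝ) / 2) ^ (N + (m + 1)) = (1 / 2) ^ (N + m) * (1 / 2) := by
        rw [← add_assoc, pow_succ]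
      rw [h3]
      linarith
  have hD : ∀ N m t x, dist ((X (N + m)).Φ t x) ((X N).Φ t x) ≤
      2 * (1 / 2) ^ N - 2 * (1 / 2) ^ (N + m) := by
    intro N m t x
    induction m with
    | zero => rw [add_zero, dist_self, sub_self]
    | succ m ih =>
      have h2 := (hX (N + m)).dst t x
      have h3 : ((1 : ℝ) / 2) ^ (N + (m + 1)) = (1 / 2) ^ (N + m) * (1 / 2) := by
        rw [← add_assoc, pow_succ]
      have h4 := dist_triangle ((X (N + m + 1)).Φ t x) ((X (N + m)).Φ t x) ((X N).Φ t x)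
      rw [h3]
      change dist ((X (N + m + 1)).Φ t x) ((X N).Φ t x) ≤ _
      linarith
  have hE : ∀ N m (t : Icc (0 : ℝ) 1), (t : ℝ) ≤ 1 - (1 / 2) ^ N →
      (X (N + m)).Φ t = (X N).Φ t := by
    intro N m t ht
    induction m with
    | zero => rfl
    | succ m ih =>
      rw [← ih]
      refine (hX (N + m)).eq t (ht.trans ?_)
      have : ((1 : ℝ) / 2) ^ (N + m) ≤ (1 / 2) ^ N :=
        pow_le_pow_of_le_one (by norm_num) (by norm_num) (Nat.le_add_right N m)
      linarith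
  have hsm : ∀ ε : ℝ, 0 < ε → ∃ N₀ : ℕ, ∀ N ≥ N₀, 2 * ((1 : ℝ) / 2) ^ N < ε := by
    intro ε hε
    obtain ⟨N₀, hN₀⟩ := exists_pow_lt_of_lt_one (half_pos hε) (show (1 : ℝ) / 2 < 1 by norm_num)
    refine ⟨N₀, fun N hN => ?_⟩
    have := (pow_le_pow_of_le_one (a := (1 : ℝ) / 2) (by norm_num) (by norm_num) hN).trans_lt hN₀
    linarith
  -- the limit
  have hex : ∀ t : Icc (0 : ℝ) 1, (t : ℝ) < 1 → ∃ N : ℕ, (t : ℝ) ≤ 1 - (1 / 2) ^ N := by
    intro t ht
    obtain ⟨N, hN⟩ := exists_pow_lt_of_lt_one (show 0 < 1 - (t : ℝ) by linarith)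
      (show (1 : ℝ) / 2 < 1 by norm_num)
    exact ⟨N, by linarith⟩
  set Ψ : Icc (0 : ℝ) 1 → (E n ≃ₜ E n) := fun t =>
    if ht : (t : ℝ) < 1 then (X (hex t ht).choose).Φ t else g with hΨ
  have hconv : ∀ ε : ℝ, 0 < ε → ∃ N₀, ∀ N ≥ N₀, ∀ t x, dist ((X N).Φ t x) (Ψ t x) ≤ ε := by
    intro ε hε
    obtain ⟨N1, hN1⟩ := hsm ε hε
    obtain ⟨N2, hN2⟩ := hg ε hε
    refine ⟨max N1 N2, fun N hN t x => ?_⟩
    have h0 : (0 : ℝ) < (1 / 2) ^ N := by positivity
    by_cases ht : (t : ℝ) < 1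
    · have e : Ψ t = (X (hex t ht).choose).Φ t := dif_pos ht
      rw [e]
      have hch := (hex t ht).choose_spec
      set M := (hex t ht).choose with hM
      rcases le_total N M with h | h
      · obtain ⟨m, hm⟩ := Nat.exists_eq_add_of_le h
        rw [hm, dist_comm]
        have h1 := hD N m t x
        have h2 := hN1 N ((le_max_left _ _).trans hN)
        have h3 : (0 : ℝ) < (1 / 2) ^ (N + m) := by positivity
        linarith
      · obtain ⟨m, hm⟩ := Nat.exists_eq_add_of_le h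
        have h1 := hE M m t hch
        rw [hm, h1, dist_self]
        exact hε.le
    · have e : Ψ t = g := dif_neg ht
      have ht1 : t = ⟨1, by simp⟩ := Subtype.ext (le_antisymm t.2.2 (not_lt.1 ht))
      rw [e]
      have h1 := hN2 N ((le_max_right _ _).trans hN) x
      rw [← hend N] at h1
      rw [ht1]
      exact h1.le
  obtain ⟨H', ψ', hp⟩ := path_lim (fun N => (X N).path) (fun ε hε => by
    obtain ⟨N₀, hN₀⟩ := hsm (ε / 2) (half_pos hε)
    have key : ∀ N M, N₀ ≤ N → N ≤ M → ∀ k,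
        hofer (fun t x => (X M).H k t x - (X N).H k t x) ≤ ε := by
      intro N M hN hNM k
      obtain ⟨m, rfl⟩ := Nat.exists_eq_add_of_le hNM
      have h1 := hH N m k
      have h2 := hN₀ N hN
      have h3 : (0 : ℝ) < (1 / 2) ^ (N + m) := by positivity
      linarith
    refine ⟨N₀, fun N hN M hM k => ?_⟩
    rcases le_total N M with h | h
    · have h1 := key N M hN h k
      have hb : ∀ t, Bd (fun x => (X M).H k t x - (X N).H k t x) := fun t =>
        (bd_of_supp (hcX M k) hc ((X M).path.supp k) t).sub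
          (bd_of_supp (hcX N k) hc ((X N).path.supp k) t)
      have h2 := hofer_const_mul (H := fun t x => (X M).H k t x - (X N).H k t x) hb (-1)
      have e : (fun (t : ℝ) (x : E n) => -1 * ((X M).H k t x - (X N).H k t x)) =
          fun t x => (X N).H k t x - (X M).H k t x := by
        funext t x; ring
      rw [e] at h2
      rw [h2]
      simpa using h1
    · exact key M N hM h k) hconv
  have h1 := hp.endp_mem
  have e : endp Ψ = g := by
    change Ψ ⟨1, by simp⟩ = g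
    exact dif_neg (by simp)
  rwa [e] at h1

end Pool.Agent.W_68f289_h51

end
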