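import Pool.Agent.W_68f289_h51m.Ba
import Pool.Agent.W_68f289_h51m.Pr

section

/-!
The energy criterion: all Hamiltonian homeomorphisms of the ball are hameomorphisms if and only if
the hameomorphisms have countable index, if and only if uniformly small Hamiltonian diffeomorphisms
have small energy; and this is necessary for simplicity.
-/

open Set Metric Topology Filter Pool.Agent.W_MP_68f289_gt Pool.Agent.W_68f289_h35
open scoped NNReal ContDiff

namespace Pool.Agent.W_68f289_h51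

variable {n : ℕ} {K : Set (E n)}

/-- if the hameomorphisms have countable index, then small Hamiltonian homeomorphisms have small
energy -/
theorem small_energy (hc : Countable (G n ⧸ HS n)) {R : ℝ} (hR0 : 0 ≤ R) (hR1 : R < 1) :
    ∃ m : ℕ, ∀ δ : ℝ, 0 < δ → ∃ ε > 0, ∀ g ∈ Gn n R, (∀ x : E n, dist (g • x) x < ε) →
      (g : E n ≃ₜ E n) ∈ Small n (CB n (Rm m)) δ := by
  obtain ⟨m, hm⟩ := small_of_countable hc hR0 hR1
  obtain ⟨d, hd⟩ := exists_dense (n := n) (Rm_pos m) (Rm_lt m)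
  refine ⟨m, fun δ hδ => ?_⟩
  obtain ⟨ε, hε, h⟩ := hm d hd (δ / 6) (by positivity)
  refine ⟨ε, hε, fun g hg hgs => ?_⟩
  obtain ⟨a, b, rfl⟩ := h g hg hgs
  have key : ∀ a : FS d (2 * (δ / 6)), (ep (Rm_pos m) (Rm_lt m) a : E n ≃ₜ E n) ∈
      Small n (CB n (Rm m)) (2 * (δ / 6)) := fun a =>
    ⟨_, _, _, limP_path (Rm_pos m) (Rm_lt m) a, rfl, a.2.2.1, limP_dist (Rm_pos m) (Rm_lt m) a⟩
  have h1 := Small.mul (Small.inv (key a)) (key b)
  have e : 2 * (2 * (δ / 6)) + 2 * (δ / 6) = δ := by ring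
  rw [e] at h1
  exact h1

lemma HS_eq_top : HS n = ⊤ ↔ Hameo n = HamBar n := by
  unfold HS
  rw [Subgroup.subgroupOf_eq_top]
  exact ⟨fun h => le_antisymm Hameo_le h, fun h => h.ge⟩

lemma HS_normal : (HS n).Normal := by
  refine ⟨fun u hu g => ?_⟩
  have hu' : (u : E n ≃ₜ E n) ∈ Hameo n := hu
  obtain ⟨K, H, ψ, Φ, h1, h2⟩ := exists_TPath (⟨u, hu'⟩ : Hm n)
  obtain ⟨-, K'', H'', ψ'', Φ'', -, h3, h4, -⟩ := h1.conj_strong g.2
  have h5 := h3.endp_mem
  rw [h4, h2] at h5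
  exact h5

lemma HS_ne_bot (hn : 1 ≤ n) : HS n ≠ ⊥ := by
  obtain ⟨x, hx⟩ := Subgroup.ne_bot_iff_exists_ne_one.1 (sysL hn (big_Hameo (n := n))).Mo_ne_bot
  intro h
  have h1 : (⟨((x : Hm n) : E n ≃ₜ E n), Hameo_le (x : Hm n).2⟩ : G n) ∈ HS n := (x : Hm n).2
  rw [h, Subgroup.mem_bot] at h1
  apply hx
  have h2 : ((x : Hm n) : E n ≃ₜ E n) = 1 := congrArg (fun y : G n => (y : E n ≃ₜ E n)) h1
  exact Subtype.ext (Subtype.ext h2)

/-- with the energy estimate, every Hamiltonian homeomorphism is a hameomorphism -/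
theorem mem_of_energyEst (h : EnergyEst n) {R : ℝ} (hR0 : 0 < R) (hR1 : R < 1)
    {g : E n ≃ₜ E n} (hg : g ∈ GS n (CB n R)) : g ∈ Hameo n := by
  obtain ⟨R', hR'0, hR'1, hE⟩ := h R hR0 hR1
  choose e he hsm using fun k : ℕ => hE ((1 / 2) ^ k) (by positivity)
  set ρ : ℕ → ℝ := fun k => min (min (e k) (e (k - 1)) / 2) ((1 / 2) ^ k) with hρ
  have hρ0 : ∀ k, 0 < ρ k := fun k => lt_min (half_pos (lt_min (he _) (he _))) (by positivity)
  choose u hu huK hud using fun k : ℕ => hg.2 (ρ k) (hρ0 k)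
  have hρ1 : ∀ k, ρ k ≤ (1 / 2) ^ k := fun k => min_le_right _ _
  have hρ2 : ∀ k, ρ k ≤ e k / 2 := fun k =>
    (min_le_left _ _).trans (by linarith [min_le_left (e k) (e (k - 1))])
  have hρ3 : ∀ k, ρ (k + 1) ≤ e k / 2 := fun k => by
    have h1 : ρ (k + 1) ≤ min (e (k + 1)) (e (k + 1 - 1)) / 2 := min_le_left _ _
    have h2 := min_le_right (e (k + 1)) (e (k + 1 - 1))
    rw [Nat.add_sub_cancel] at h1 h2
    linarith
  have hw : ∀ k, u (k + 1) * (u k)⁻¹ ∈ Small n (CB n R') ((1 / 2) ^ k) := by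
    intro k
    refine hsm k _ (isHam_mul (hu _) (isHam_inv (hu _))) (fun x hx => ?_) (fun x => ?_)
    · change u (k + 1) ((u k)⁻¹ x) = x
      rw [off_inv (huK k) x hx, huK (k + 1) x hx]
    · change dist (u (k + 1) ((u k)⁻¹ x)) x < e k
      set y := (u k)⁻¹ x with hy
      have hyx : u k y = x := (u k).apply_symm_apply x
      have h1 := hud (k + 1) y
      have h2 := hud k y
      rw [hyx] at h2
      have h3 := dist_triangle_right (u (k + 1) y) x (g y)
      have h4 := hρ2 k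
      have h5 := hρ3 k
      linarith
  have key : g * (u 0)⁻¹ ∈ Hameo n := by
    refine infinite_product (isCompact_CB R') (CB_sub hR'0.le hR'1) hw
      (v := fun k => u k * (u 0)⁻¹) (mul_inv_cancel (u 0)) (fun N => by group) ?_
    intro ε hε
    obtain ⟨N₀, hN₀⟩ := exists_pow_lt_of_lt_one hε (show (1 : ℝ) / 2 < 1 by norm_num)
    refine ⟨N₀, fun N hN x => ?_⟩
    have h1 := hud N ((u 0)⁻¹ x)
    have h2 := hρ1 N
    have h3 := (pow_le_pow_of_le_one (a := (1 : ℝ) / 2) (by norm_num) (by norm_num) hN).trans_lt hN₀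
    exact h1.trans (h2.trans_lt h3)
  have h0 : u 0 ∈ Hameo n := Subgroup.subset_closure (isHam_hameos (hu 0))
  have h1 := mul_mem key h0
  rwa [inv_mul_cancel_right] at h1

theorem energyEst_of_countable (hc : Countable (G n ⧸ HS n)) : EnergyEst n := by
  intro R hR0 hR1
  obtain ⟨m, hm⟩ := small_energy hc hR0.le hR1
  have hpos : 0 < Rm m := by
    unfold Rm
    have : 1 / ((m : ℝ) + 2) ≤ 1 / 2 :=
      one_div_le_one_div_of_le (by norm_num) (by linarith [Nat.cast_nonneg (α := ℝ) m])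
    linarith
  refine ⟨Rm m, hpos, Rm_lt m, fun δ hδ => ?_⟩
  obtain ⟨ε, hε, h⟩ := hm δ hδ
  refine ⟨ε, hε, fun u hu huK hus => ?_⟩
  have h1 : u ∈ GS n (CB n R) := GS_isHam hu huK
  have h2 : u ∈ HamBar n := mem_HamBar_iff.2 (GS_gens (isCompact_CB R) (CB_sub hR0.le hR1) h1)
  exact h ⟨u, h2⟩ h1 hus

theorem energy_criterion (n : ℕ) :
    (Hameo n = HamBar n ↔ Countable (G n ⧸ HS n)) ∧
    (Hameo n = HamBar n ↔ EnergyEst n) ∧
    (1 ≤ n → IsSimpleGroup (G n) → Hameo n = HamBar n) := by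
  have h1 : Hameo n = HamBar n → Countable (G n ⧸ HS n) := by
    intro h
    rw [← HS_eq_top] at h
    rw [h]
    infer_instance
  have h3 : EnergyEst n → Hameo n = HamBar n := by
    intro h
    refine le_antisymm Hameo_le fun g hg => ?_
    obtain ⟨R, hR0, hR1, hg'⟩ := exists_Gn (⟨g, hg⟩ : G n)
    exact mem_of_energyEst h hR0 hR1 hg'
  refine ⟨⟨h1, fun h => h3 (energyEst_of_countable h)⟩,
    ⟨fun h => energyEst_of_countable (h1 h), h3⟩, fun hn hs => ?_⟩
  rw [← HS_eq_top]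
  exact (hs.eq_bot_or_eq_top_of_normal _ HS_normal).resolve_left (HS_ne_bot hn)

/-- if some Hamiltonian homeomorphism is not a hameomorphism -/
theorem gap (hn : 1 ≤ n) (h : Hameo n ≠ HamBar n) :
    ¬ Countable (G n ⧸ (Hameo n).subgroupOf (HamBar n)) ∧ ¬ EnergyEst n ∧
      ¬ IsSimpleGroup (G n) :=
  ⟨fun h' => h ((energy_criterion n).1.2 h'), fun h' => h ((energy_criterion n).2.1.2 h'),
    fun h' => h ((energy_criterion n).2.2 hn h')⟩

/-- if every Hamiltonian homeomorphism is a hameomorphism -/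
theorem no_gap (h : Hameo n = HamBar n) : EnergyEst n := (energy_criterion n).2.1.1 h

end Pool.Agent.W_68f289_h51

end
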