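import Pool.Agent.W_68f289_h51m.Es

/-!
Definitions used in the statement about generic Hamiltonian homeomorphisms.
-/

open Set Metric Topology Pool.Agent.W_MP_68f289_gt

namespace Pool.Agent.W_68f289_h51

/-- the limits of Hamiltonian diffeomorphisms of the closed ball of radius `R`, as a subset of the
space of continuous maps with the compact-open topology -/
def XR (n : ℕ) (R : ℝ) : Set C(E n, E n) := {f | ∃ g ∈ GS n (CB n R), ∀ x, f x = g x}

/-- the hameomorphisms in `XR n R` -/
def HX (n : ℕ) (R : ℝ) : Set ↥(XR n R) := {f | ∃ g ∈ Hameo n, ∀ x, f.1 x = g x}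

end Pool.Agent.W_68f289_h51
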