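import Pool.Agent.W_MP_68f289_gt.Gn
import Pool.Agent.W_MP_68f289_gt.HG

/-!
The restriction of Hamiltonian homeomorphisms to the closed ball, with values in a Polish group.
-/

open Set Metric Topology commutatorElement Pool.Agent.W_MP_68f289_gt
open scoped NNReal ContDiff

namespace Pool.Agent.W_68f289_h51

variable {n : ℕ}

lemma ext_smul {g h : G n} (e : ∀ x : E n, g • x = h • x) : g = h :=
  FaithfulSMul.eq_of_smul_eq_smul e

/-- the closed unit ball -/
abbrev Zn (n : ℕ) : Type := ↥(CB n 1)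

instance : CompactSpace (Zn n) := isCompact_iff_compactSpace.1 (isCompact_CB 1)

lemma Bl_sub_CB : Bl n ⊆ CB n 1 := by
  intro x hx
  rw [mem_CB zero_le_one]
  exact (mem_Bl.1 hx).le

lemma smul_CB (g : G n) {x : E n} (hx : x ∈ CB n 1) : g • x ∈ CB n 1 :=
  ((off_Bl g).mono Bl_sub_CB).smul_mem hx

/-- restriction to the closed ball -/
def resC (g : G n) : C(Zn n, Zn n) where
  toFun z := ⟨g • (z : E n), smul_CB g z.2⟩
  continuous_toFun := ((continuous_const_smul g).comp continuous_subtype_val).subtype_mk _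

/-- restriction to the closed ball, as a homomorphism -/
def res : G n →* HG (Zn n) where
  toFun g := ⟨(resC g, resC g⁻¹), by
    constructor
    · ext1 z
      exact Subtype.ext (smul_inv_smul g (z : E n))
    · ext1 z
      exact Subtype.ext (inv_smul_smul g (z : E n))⟩
  map_one' := HG.ext fun z => Subtype.ext (one_smul _ (z : E n))
  map_mul' g h := HG.ext fun z => Subtype.ext (mul_smul g h (z : E n))

lemma res_fst (g : G n) (z : Zn n) : ((res g).1.1 z : E n) = g • (z : E n) := rfl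

lemma res_snd (g : G n) (z : Zn n) : ((res g).1.2 z : E n) = g⁻¹ • (z : E n) := rfl

lemma res_inj : Function.Injective (res : HamBar n → HG (Zn n)) := by
  intro g h e
  apply ext_smul
  intro x
  by_cases hx : x ∈ CB n 1
  · have := congrArg (fun p : HG (Zn n) => ((p.1.1 ⟨x, hx⟩ : Zn n) : E n)) e
    exact this
  · have hx' : x ∉ Bl n := fun h => hx (Bl_sub_CB h)
    rw [off_Bl g x hx', off_Bl h x hx']

open Classical in
/-- the image of `Gn n R` is closed -/
lemma closed_Gn {R : ℝ} (hR0 : 0 ≤ R) (hR1 : R < 1) :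
    IsClosed (((Gn n R).map res : Subgroup (HG (Zn n))) : Set (HG (Zn n))) := by
  apply isClosed_of_closure_subset
  intro p hp
  have happ : ∀ ε : ℝ, 0 < ε → ∃ g ∈ Gn n R, (∀ z : Zn n, dist (p.1.1 z : E n) (g • (z : E n)) < ε) ∧
      ∀ z : Zn n, dist (p.1.2 z : E n) (g⁻¹ • (z : E n)) < ε := by
    intro ε hε
    have ho : IsOpen {q : HG (Zn n) | dist p.1.1 q.1.1 < ε ∧ dist p.1.2 q.1.2 < ε} := by
      refine IsOpen.inter ?_ ?_
      · exact isOpen_lt (continuous_const.dist (continuous_fst.comp continuous_subtype_val))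
          continuous_const
      · exact isOpen_lt (continuous_const.dist (continuous_snd.comp continuous_subtype_val))
          continuous_const
    obtain ⟨q, hq, g, hg, rfl⟩ := mem_closure_iff.1 hp _ ho (by
      change dist p.1.1 p.1.1 < ε ∧ dist p.1.2 p.1.2 < ε
      rw [dist_self, dist_self]; exact ⟨hε, hε⟩)
    refine ⟨g, hg, fun z => ?_, fun z => ?_⟩
    · exact lt_of_le_of_lt (ContinuousMap.dist_apply_le_dist (f := p.1.1) (g := (res g).1.1) z) hq.1
    · exact lt_of_le_of_lt (ContinuousMap.dist_apply_le_dist (f := p.1.2) (g := (res g).1.2) z) hq.2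
  set P : E n → E n := fun x => if h : x ∈ CB n 1 then (p.1.1 ⟨x, h⟩ : E n) else x with hP
  set Q : E n → E n := fun x => if h : x ∈ CB n 1 then (p.1.2 ⟨x, h⟩ : E n) else x with hQ
  have hP1 : ∀ x (h : x ∈ CB n 1), P x = p.1.1 ⟨x, h⟩ := fun x h => dif_pos h
  have hQ1 : ∀ x (h : x ∈ CB n 1), Q x = p.1.2 ⟨x, h⟩ := fun x h => dif_pos h
  have hP2 : ∀ x, x ∉ CB n 1 → P x = x := fun x h => dif_neg h
  have hQ2 : ∀ x, x ∉ CB n 1 → Q x = x := fun x h => dif_neg h
  obtain ⟨g, hg, hgP⟩ := mk_lim hR0 hR1 (P := P) (Q := Q) (by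
      intro x
      by_cases h : x ∈ CB n 1
      · rw [hQ1 x h, hP1 _ (p.1.2 ⟨x, h⟩).2]
        exact congrArg Subtype.val (ContinuousMap.congr_fun p.2.1 ⟨x, h⟩)
      · rw [hQ2 x h, hP2 x h]) (by
      intro x
      by_cases h : x ∈ CB n 1
      · rw [hP1 x h, hQ1 _ (p.1.1 ⟨x, h⟩).2]
        exact congrArg Subtype.val (ContinuousMap.congr_fun p.2.2 ⟨x, h⟩)
      · rw [hP2 x h, hQ2 x h]) (by
      intro ε hε
      obtain ⟨g, hg, h1, h2⟩ := happ ε hε
      refine ⟨g, hg, fun x => ?_⟩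
      by_cases h : x ∈ CB n 1
      · rw [hP1 x h, hQ1 x h]
        exact ⟨h1 ⟨x, h⟩, h2 ⟨x, h⟩⟩
      · have hx' : x ∉ Bl n := fun h' => h (Bl_sub_CB h')
        rw [hP2 x h, hQ2 x h, off_Bl g x hx', off_Bl g⁻¹ x hx', dist_self]
        exact ⟨hε, hε⟩)
  refine ⟨g, hg, HG.ext fun z => Subtype.ext ?_⟩
  rw [res_fst, hgP, hP1 _ z.2]

/-- an exhaustion -/
noncomputable def Rm (m : ℕ) : ℝ := 1 - 1 / ((m : ℝ) + 2)

lemma Rm_pos (m : ℕ) : 0 ≤ Rm m := by
  unfold Rm
  have : 1 / ((m : ℝ) + 2) ≤ 1 := by rw [div_le_one (by positivity)]; linarith [(Nat.cast_nonneg m : (0:ℝ) ≤ m)]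
  linarith

lemma Rm_lt (m : ℕ) : Rm m < 1 := by
  unfold Rm
  have : 0 < 1 / ((m : ℝ) + 2) := by positivity
  linarith

lemma exists_Rm (g : G n) : ∃ m : ℕ, g ∈ Gn n (Rm m) := by
  obtain ⟨r, hr0, hr1, hg⟩ := exists_Gn g
  obtain ⟨m, hm⟩ := exists_nat_gt (1 / (1 - r))
  refine ⟨m, Gn_mono hr0.le ?_ hg⟩
  have h1 : 0 < 1 - r := by linarith
  rw [div_lt_iff₀ h1] at hm
  unfold Rm
  have h2 : 1 / ((m : ℝ) + 2) ≤ 1 - r := by
    rw [div_le_iff₀ (by positivity)]
    nlinarith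
  linarith

/-- representatives for cosets of a subgroup of countable index -/
lemma exists_reps {L : Subgroup (G n)} (hL : Countable (G n ⧸ L)) (R : ℝ) :
    ∃ T : Set (G n), T.Countable ∧ ∀ h ∈ Gn n R, ∃ t ∈ T, t ∈ Gn n R ∧ t⁻¹ * h ∈ L := by
  classical
  set f : G n ⧸ L → G n := fun c =>
    if h : ∃ t ∈ Gn n R, (t : G n ⧸ L) = c then h.choose else 1 with hf
  refine ⟨range f, countable_range f, fun h hh => ?_⟩
  have hex : ∃ t ∈ Gn n R, (t : G n ⧸ L) = (h : G n ⧸ L) := ⟨h, hh, rfl⟩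
  refine ⟨f h, ⟨_, rfl⟩, ?_, ?_⟩
  · simp only [hf]
    rw [dif_pos hex]
    exact hex.choose_spec.1
  · simp only [hf]
    rw [dif_pos hex]
    exact QuotientGroup.eq.1 hex.choose_spec.2

end Pool.Agent.W_68f289_h51
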