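import Pool.Agent.W_68f289_h51m.Es2
import Pool.Agent.W_68f289_h51m.Po

/-!
Two descriptions of the group of limits of Hamiltonian diffeomorphisms of a closed ball as
a topological space.
-/

open Set Metric Topology Filter Pool.Agent.W_MP_68f289_gt
open scoped NNReal ContDiff

namespace Pool.Agent.W_68f289_h51

variable {n : ℕ} {R : ℝ}

/-- a homeomorphism as a continuous map -/
def toC (g : G n) : C(E n, E n) := ⟨fun x => g • x, continuous_const_smul g⟩

lemma mem_G_of_GS (hR0 : 0 ≤ R) (hR1 : R < 1) {g : E n ≃ₜ E n} (hg : g ∈ GS n (CB n R)) :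
    g ∈ HamBar n := mem_HamBar_iff.2 (GS_gens (isCompact_CB R) (CB_sub hR0 hR1) hg)

lemma exists_G (hR0 : 0 ≤ R) (hR1 : R < 1) (f : XR n R) : ∃ g ∈ Gn n R, toC g = f.1 := by
  obtain ⟨g, hg, hf⟩ := f.2
  exact ⟨⟨g, mem_G_of_GS hR0 hR1 hg⟩, hg, ContinuousMap.ext fun x => (hf x).symm⟩

/-- continuity of the map to the Polish group -/
lemma cont_res (F : XR n R → G n) (hF : ∀ f, toC (F f) = f.1) :
    Continuous fun f => res (F f) := by
  rw [continuous_iff_continuousAt]
  intro f₀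
  rw [ContinuousAt, tendsto_def]
  intro U hU
  have h1 : (fun p : HG (Zn n) => p * res (F f₀)) ⁻¹' U ∈ 𝓝 (1 : HG (Zn n)) := by
    refine (continuous_mul_const (res (F f₀))).continuousAt.preimage_mem_nhds ?_
    rwa [one_mul]
  obtain ⟨ε, hε, h2⟩ := HG.small_mem_nhds h1
  have hc : Continuous fun f : XR n R => (f.1.restrict (CB n 1) : C(Zn n, E n)) :=
    (ContinuousMap.continuous_restrict (CB n 1)).comp continuous_subtype_val
  have h3 : {f : XR n R | dist (f.1.restrict (CB n 1) : C(Zn n, E n))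
      (f₀.1.restrict (CB n 1)) < ε} ∈ 𝓝 f₀ := by
    refine (isOpen_lt (hc.dist continuous_const) continuous_const).mem_nhds ?_
    change dist _ _ < ε
    rw [dist_self]
    exact hε
  filter_upwards [h3] with f hf
  have h4 := h2 (res (F f) * (res (F f₀))⁻¹) (fun z => ?_)
  · change res (F f) * (res (F f₀))⁻¹ * res (F f₀) ∈ U at h4
    rwa [inv_mul_cancel_right] at h4
  · rw [← map_inv, ← map_mul]
    change dist ((F f * (F f₀)⁻¹) • (z : E n)) (z : E n) < ε
    have hz : (F f₀)⁻¹ • (z : E n) ∈ CB n 1 := smul_CB _ z.2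
    have h5 : dist (f.1.restrict (CB n 1) ⟨_, hz⟩) (f₀.1.restrict (CB n 1) ⟨_, hz⟩) < ε :=
      (ContinuousMap.dist_apply_le_dist _).trans_lt hf
    have h6 : f.1.restrict (CB n 1) ⟨_, hz⟩ = F f • ((F f₀)⁻¹ • (z : E n)) := by
      change f.1 ((F f₀)⁻¹ • (z : E n)) = _
      rw [← hF f]
      rfl
    have h7 : f₀.1.restrict (CB n 1) ⟨_, hz⟩ = (z : E n) := by
      change f₀.1 ((F f₀)⁻¹ • (z : E n)) = _
      rw [← hF f₀]
      exact smul_inv_smul _ _
    rw [h6, h7] at h5
    rw [mul_smul]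
    exact h5

/-- continuity of the map from the Polish group -/
lemma cont_toC {Γ : Type*} [TopologicalSpace Γ] {p : Γ → HG (Zn n)} (hp : Continuous p)
    (F : Γ → G n) (hF : ∀ t, res (F t) = p t) : Continuous fun t => toC (F t) := by
  rw [continuous_iff_continuousAt]
  intro t₀
  rw [ContinuousAt, ContinuousMap.tendsto_iff_tendstoLocallyUniformly]
  refine TendstoUniformly.tendstoLocallyUniformly ?_
  rw [Metric.tendstoUniformly_iff]
  intro ε hε
  have hc : Continuous fun t : Γ => (p t).1.1 := (continuous_fst.comp continuous_subtype_val).comp hp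
  have h3 : {t : Γ | dist (p t).1.1 (p t₀).1.1 < ε} ∈ 𝓝 t₀ := by
    refine (isOpen_lt (hc.dist continuous_const) continuous_const).mem_nhds ?_
    change dist _ _ < ε
    rw [dist_self]
    exact hε
  filter_upwards [h3] with t ht x
  change dist (F t₀ • x) (F t • x) < ε
  by_cases hx : x ∈ CB n 1
  · have h5 : dist ((p t).1.1 ⟨x, hx⟩) ((p t₀).1.1 ⟨x, hx⟩) < ε :=
      (ContinuousMap.dist_apply_le_dist _).trans_lt ht
    rw [← hF t, ← hF t₀] at h5
    rw [dist_comm]
    exact h5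
  · have hx' : x ∉ Bl n := fun h => hx (Bl_sub_CB h)
    rw [off_Bl _ x hx', off_Bl _ x hx', dist_self]
    exact hε

/-- the two topological spaces are homeomorphic -/
theorem exists_homeo (hR0 : 0 ≤ R) (hR1 : R < 1) :
    ∃ Ψ : ((Gn n R).map res : Subgroup (HG (Zn n))) ≃ₜ XR n R, ∀ p : ↥((Gn n R).map res),
      ∃ g ∈ Gn n R, res g = p.1 ∧ toC g = (Ψ p).1 := by
  choose A hA1 hA2 using exists_G (n := n) hR0 hR1
  choose B hB1 hB2 using fun p : ↥((Gn n R).map (res (n := n))) => p.2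
  have hBf : ∀ p, toC (B p) ∈ XR n R := fun p => ⟨(B p : E n ≃ₜ E n), hB1 p, fun x => rfl⟩
  have hinj : ∀ g h : G n, toC g = toC h → g = h := fun g h e =>
    ext_smul fun x => ContinuousMap.congr_fun e x
  refine ⟨{ toFun := fun p => ⟨toC (B p), hBf p⟩
            invFun := fun f => ⟨res (A f), ⟨A f, hA1 f, rfl⟩⟩
            left_inv := ?_
            right_inv := ?_
            continuous_toFun := ?_
            continuous_invFun := ?_ }, fun p => ⟨B p, hB1 p, hB2 p, rfl⟩⟩
  · intro p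
    apply Subtype.ext
    change res (A ⟨toC (B p), hBf p⟩) = p.1
    rw [hinj _ _ (hA2 ⟨toC (B p), hBf p⟩), hB2]
  · intro f
    apply Subtype.ext
    change toC (B ⟨res (A f), ⟨A f, hA1 f, rfl⟩⟩) = f.1
    rw [← hA2 f]
    congr 1
    exact res_inj (hB2 _)
  · exact (cont_toC continuous_subtype_val B hB2).subtype_mk _
  · exact (cont_res A hA2).subtype_mk _

/-- the hameomorphisms in the Polish group -/
def HP (n : ℕ) (R : ℝ) : Set ↥((Gn n R).map (res (n := n))) :=
  {p | ∃ g : G n, (g : E n ≃ₜ E n) ∈ Hameo n ∧ res g = p.1}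

theorem meagre_iff (hR0 : 0 ≤ R) (hR1 : R < 1) : IsMeagre (HX n R) ↔ IsMeagre (HP n R) := by
  obtain ⟨Ψ, hΨ⟩ := exists_homeo (n := n) hR0 hR1
  have key : Ψ ⁻¹' (HX n R) = HP n R := by
    ext p
    obtain ⟨g, hg, hgp, hgf⟩ := hΨ p
    constructor
    · rintro ⟨h, hh, hf⟩
      refine ⟨g, ?_, hgp⟩
      have e : (g : E n ≃ₜ E n) = h := by
        ext1 x
        rw [← hf x, ← hgf]
        rfl
      rw [e]
      exact hh
    · rintro ⟨h, hh, hhp⟩
      have e : h = g := res_inj (hhp.trans hgp.symm)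
      refine ⟨(g : E n ≃ₜ E n), e ▸ hh, fun x => ?_⟩
      rw [← hgf]
      rfl
  constructor
  · intro h
    rw [← key]
    exact h.preimage_of_isOpenMap Ψ.continuous Ψ.isOpenMap
  · intro h
    have h1 := h.preimage_of_isOpenMap Ψ.symm.continuous Ψ.symm.isOpenMap
    rw [← key, ← preimage_comp] at h1
    simpa using h1

end Pool.Agent.W_68f289_h51
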