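import Pool.Agent.W_68f289_h51m.En
import Pool.Agent.W_68f289_h51m.Ge

/-!
If the hameomorphisms are not meagre among the Hamiltonian homeomorphisms supported in closed balls of
radius close to one, then all Hamiltonian homeomorphisms are hameomorphisms.
-/

open Set Metric Topology Filter Pool.Agent.W_MP_68f289_gt Pool.Agent.W_68f289_h35
open scoped NNReal ContDiff

namespace Pool.Agent.W_68f289_h51

variable {n : ℕ} {R : ℝ}

theorem small_of_nonmeagre (hR0 : 0 ≤ R) (hR1 : R < 1) (hM : ¬ IsMeagre (HP n R)) :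
    ∃ m : ℕ, ∀ d : ℕ → SP n (Rm m), Dns d → ∀ δ : ℝ, 0 < δ → ∃ ε > 0, ∀ g ∈ Gn n R,
      (∀ x : E n, dist (g • x) x < ε) → ∃ a b : FS d (2 * δ),
        g = (ep (Rm_pos m) (Rm_lt m) a)⁻¹ * ep (Rm_pos m) (Rm_lt m) b := by
  set Hs : Subgroup (HG (Zn n)) := (Gn n R).map res with hHs
  have hHcl : IsClosed (Hs : Set (HG (Zn n))) := closed_Gn hR0 hR1
  set B : ℕ → Set Hs := fun m => {h : Hs | ∃ H ψ Φ, TPath n (CB n (Rm m)) H ψ Φ ∧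
    ∃ g : G n, (g : E n ≃ₜ E n) = endp Φ ∧ (h : HG (Zn n)) = res g} with hB
  obtain ⟨m, hm⟩ : ∃ m, ¬ IsMeagre (B m) := by
    by_contra hcon
    push Not at hcon
    refine hM ((isMeagre_iUnion hcon).mono ?_)
    rintro p ⟨g, hg, hgp⟩
    obtain ⟨K, H, ψ, Φ, h1, h2⟩ := exists_TPath (⟨_, hg⟩ : Hm n)
    obtain ⟨m, hm⟩ := exists_Rm_ge h1.comp h1.sub
    rw [mem_iUnion]
    exact ⟨m, H, ψ, Φ, TPath.mono h1 (isCompact_CB _) (CB_sub (Rm_pos m) (Rm_lt m)) hm,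
      g, h2.symm, hgp.symm⟩
  refine ⟨m, fun d hd δ hδ => ?_⟩
  obtain ⟨U, hU, hw⟩ := baire_part (ep_cont (Rm_pos m) (Rm_lt m) d (2 * δ)) Hs hHcl (B m) hm
    (range fun i : ℕ => res (d i).bs) (countable_range _) (by
      rintro h ⟨H, ψ, Φ, hp, g, hg, hh⟩
      obtain ⟨i, a, ha⟩ := cover (Rm_pos m) (Rm_lt m) hd hp hδ
      refine ⟨res (d i).bs, ⟨i, rfl⟩, a, ?_⟩
      have e : g = (d i).bs * ep (Rm_pos m) (Rm_lt m) a := Subtype.ext (hg.trans ha)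
      rw [hh, e, map_mul])
  obtain ⟨ε, hε, h1⟩ := HG.small_mem_nhds hU
  refine ⟨ε, hε, fun g hg hgs => ?_⟩
  obtain ⟨p, q, hpq⟩ := hw (res g) (h1 _ fun z => hgs z) ⟨g, hg, rfl⟩
  refine ⟨p, q, ?_⟩
  apply res_inj
  rw [map_mul, map_inv]
  exact hpq

theorem small_energy' (hR0 : 0 ≤ R) (hR1 : R < 1) (hM : ¬ IsMeagre (HP n R)) :
    ∃ m : ℕ, ∀ δ : ℝ, 0 < δ → ∃ ε > 0, ∀ g ∈ Gn n R, (∀ x : E n, dist (g • x) x < ε) →
      (g : E n ≃ₜ E n) ∈ Small n (CB n (Rm m)) δ := by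
  obtain ⟨m, hm⟩ := small_of_nonmeagre hR0 hR1 hM
  obtain ⟨d, hd⟩ := exists_dense (n := n) (Rm_pos m) (Rm_lt m)
  refine ⟨m, fun δ hδ => ?_⟩
  obtain ⟨ε, hε, h⟩ := hm d hd (δ / 6) (by positivity)
  refine ⟨ε, hε, fun g hg hgs => ?_⟩
  obtain ⟨a, b, rfl⟩ := h g hg hgs
  have key : ∀ a : FS d (2 * (δ / 6)), (ep (Rm_pos m) (Rm_lt m) a : E n ≃ₜ E n) ∈
      Small n (CB n (Rm m)) (2 * (δ / 6)) := fun a =>
    ⟨_, _, _, limP_path (Rm_pos m) (Rm_lt m) a, rfl, a.2.2.1, limP_dist (Rm_pos m) (Rm_lt m) a⟩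
  have h1 := Small.mul (Small.inv (key a)) (key b)
  have e : 2 * (2 * (δ / 6)) + 2 * (δ / 6) = δ := by ring
  rw [e] at h1
  exact h1

theorem energyEst_of_nonmeagre
    (h : ∀ R₀ : ℝ, R₀ < 1 → ∃ R : ℝ, R₀ < R ∧ R < 1 ∧ ¬ IsMeagre (HX n R)) : EnergyEst n := by
  intro R₀ hR₀0 hR₀1
  obtain ⟨R, hR, hR1, hM⟩ := h R₀ hR₀1
  have hR0 : 0 ≤ R := hR₀0.le.trans hR.le
  rw [meagre_iff hR0 hR1] at hM
  obtain ⟨m, hm⟩ := small_energy' hR0 hR1 hM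
  have hpos : 0 < Rm m := by
    unfold Rm
    have : 1 / ((m : ℝ) + 2) ≤ 1 / 2 :=
      one_div_le_one_div_of_le (by norm_num) (by linarith [Nat.cast_nonneg (α := ℝ) m])
    linarith
  refine ⟨Rm m, hpos, Rm_lt m, fun δ hδ => ?_⟩
  obtain ⟨ε, hε, h⟩ := hm δ hδ
  refine ⟨ε, hε, fun u hu huK hus => ?_⟩
  have h1 : u ∈ GS n (CB n R) := GS_isHam hu fun x hx => huK x fun h' =>
    hx (CB_mono hR₀0.le hR.le h')
  exact h ⟨u, mem_G_of_GS hR0 hR1 h1⟩ h1 hus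

/-- if all Hamiltonian homeomorphisms are hameomorphisms then the latter are not meagre -/
theorem not_meagre (h : Hameo n = HamBar n) (hR0 : 0 ≤ R) (hR1 : R < 1) :
    ¬ IsMeagre (HX n R) := by
  rw [meagre_iff hR0 hR1]
  obtain ⟨-, hi⟩ := exists_nonmeagre (ι := Unit) ((Gn n R).map (res (n := n)))
    (closed_Gn hR0 hR1) (fun _ => HP n R) (by
      rintro ⟨_, g, hg, rfl⟩
      refine ⟨(), g, ?_, rfl⟩
      rw [h]
      exact g.2)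
  exact hi

theorem generic_criterion (n : ℕ) :
    Hameo n = HamBar n ↔
      ∀ R₀ : ℝ, R₀ < 1 → ∃ R : ℝ, R₀ < R ∧ R < 1 ∧ ¬ IsMeagre (HX n R) := by
  refine ⟨fun h R₀ hR₀ => ?_, fun h => (energy_criterion n).2.1.2 (energyEst_of_nonmeagre h)⟩
  refine ⟨(max R₀ 0 + 1) / 2, ?_, ?_, not_meagre h ?_ ?_⟩
  · have := le_max_left R₀ 0
    have h1 : max R₀ 0 < 1 := max_lt hR₀ zero_lt_one
    linarith
  · have h1 : max R₀ 0 < 1 := max_lt hR₀ zero_lt_one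
    linarith
  · have := le_max_right R₀ 0
    linarith
  · have h1 : max R₀ 0 < 1 := max_lt hR₀ zero_lt_one
    linarith

end Pool.Agent.W_68f289_h51
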