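import Pool.Agent.W_68f289_h35m.Tq
import Pool.Agent.W_68f289_h51m.Po

section

/-!
Smooth Hamiltonian paths with support in a fixed closed ball: separability.
-/

open Set Metric Topology Filter Pool.Agent.W_MP_68f289_gt Pool.Agent.W_68f289_h35
open scoped NNReal ContDiff

namespace Pool.Agent.W_68f289_h51

variable {n : ℕ} {r : ℝ}

/-- smooth Hamiltonians supported in the closed ball of radius `r`, with their flows -/
structure SP (n : ℕ) (r : ℝ) where
  H : ℝ → E n → ℝ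
  ψ : ℝ → E n → E n
  iso : HIso n H ψ
  supp : ∀ t, ∀ x, x ∉ CB n r → H t x = 0

/-- the inverse maps of the flow -/
noncomputable def SP.χ (p : SP n r) : ℝ → E n → E n := HIso.inv p.iso

/-- closeness for the Hofer norm, of the flows, and of the inverse maps -/
structure Near (δ : ℝ) (p q : SP n r) : Prop where
  hof : hofer (fun t x => p.H t x - q.H t x) ≤ δ
  fwd : ∀ t ∈ Icc (0 : ℝ) 1, ∀ x, dist (p.ψ t x) (q.ψ t x) ≤ δ
  bwd : ∀ t ∈ Icc (0 : ℝ) 1, ∀ x, dist (p.χ t x) (q.χ t x) ≤ δ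

lemma SP.cont (p : SP n r) : Continuous (Function.uncurry p.H) := p.iso.smooth.continuous

lemma SP.ψ_off (p : SP n r) (t : ℝ) {x : E n} (hx : x ∉ CB n r) : p.ψ t x = x :=
  HIso.off p.iso (isCompact_CB r) p.supp t hx

lemma SP.χ_off (p : SP n r) (t : ℝ) {x : E n} (hx : x ∉ CB n r) : p.χ t x = x :=
  OpA_inv_off p.iso (isCompact_CB r) p.supp t hx

lemma SP.ψ_χ (p : SP n r) (t : ℝ) (x : E n) : p.ψ t (p.χ t x) = x := HIso.apply_inv p.iso t x

lemma SP.χ_ψ (p : SP n r) (t : ℝ) (x : E n) : p.χ t (p.ψ t x) = x := HIso.inv_apply p.iso t x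

lemma SP.ψ_cont (p : SP n r) : Continuous (Function.uncurry p.ψ) := (HIso.contDiff p.iso).continuous

lemma SP.χ_cont (p : SP n r) : Continuous (Function.uncurry p.χ) :=
  (HIso.inv_contDiff p.iso).continuous

/-- the zero Hamiltonian -/
def SP.zero (n : ℕ) (r : ℝ) : SP n r where
  H := fun _ _ => 0
  ψ := fun _ x => x
  iso := ⟨contDiff_const, ⟨∅, isCompact_empty, empty_subset _, fun _ _ _ => rfl⟩,
    fun _ => rfl, fun t x => by
      rw [XH_zero]
      exact hasDerivAt_const _ _⟩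
  supp := fun _ _ _ => rfl

/-- the data on the closed unit ball, as a continuous map -/
noncomputable def SP.J (p : SP n r) : C(Icc (0 : ℝ) 1 × Zn n, ℝ × (E n × E n)) where
  toFun q := (p.H q.1 q.2, p.ψ q.1 q.2, p.χ q.1 q.2)
  continuous_toFun := by
    have h : Continuous fun q : Icc (0 : ℝ) 1 × Zn n => ((q.1 : ℝ), (q.2 : E n)) :=
      (continuous_subtype_val.comp continuous_fst).prodMk
        (continuous_subtype_val.comp continuous_snd)
    exact (p.cont.comp h).prodMk ((p.ψ_cont.comp h).prodMk (p.χ_cont.comp h))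

lemma SP.J_apply (p : SP n r) (t : Icc (0 : ℝ) 1) (z : Zn n) :
    p.J (t, z) = (p.H t z, p.ψ t z, p.χ t z) := rfl

lemma near_of_J (hr0 : 0 ≤ r) (hr1 : r < 1) {p q : SP n r} {δ : ℝ} (hδ : 0 < δ)
    (h : dist p.J q.J < δ / 2) : Near δ p q := by
  have hC : CB n r ⊆ CB n 1 := (CB_sub hr0 hr1).trans Bl_sub_CB
  have key : ∀ t ∈ Icc (0 : ℝ) 1, ∀ x, |p.H t x - q.H t x| ≤ δ / 2 ∧
      dist (p.ψ t x) (q.ψ t x) ≤ δ / 2 ∧ dist (p.χ t x) (q.χ t x) ≤ δ / 2 := by
    intro t ht x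
    by_cases hx : x ∈ CB n 1
    · have h1 := (ContinuousMap.dist_apply_le_dist (f := p.J) (g := q.J)
        ((⟨t, ht⟩ : Icc (0 : ℝ) 1), (⟨x, hx⟩ : Zn n))).trans h.le
      rw [SP.J_apply, SP.J_apply, Prod.dist_eq, Prod.dist_eq, max_le_iff, max_le_iff,
        Real.dist_eq] at h1
      exact h1
    · have hx' : x ∉ CB n r := fun h' => hx (hC h')
      rw [p.supp t x hx', q.supp t x hx', p.ψ_off t hx', q.ψ_off t hx', p.χ_off t hx',
        q.χ_off t hx', dist_self, sub_self, abs_zero]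
      have : 0 ≤ δ / 2 := by positivity
      exact ⟨this, this, this⟩
  refine ⟨?_, fun t ht x => ?_, fun t ht x => ?_⟩
  · have h2 := hofer_le_of_abs_le (H := fun t x => p.H t x - q.H t x) (p.cont.sub q.cont)
      (isCompact_CB r) (fun t x hx => by rw [p.supp t x hx, q.supp t x hx, sub_self])
      (M := δ / 2) (fun t ht x => (key t ht x).1)
    linarith
  · have := (key t ht x).2.1
    linarith
  · have := (key t ht x).2.2
    linarith

/-- the space of smooth Hamiltonian paths is separable -/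
theorem exists_dense (hr0 : 0 ≤ r) (hr1 : r < 1) :
    ∃ d : ℕ → SP n r, ∀ (p : SP n r) (δ : ℝ), 0 < δ → ∃ k, Near δ (d k) p := by
  set S : Set C(Icc (0 : ℝ) 1 × Zn n, ℝ × (E n × E n)) := range (SP.J (n := n) (r := r)) with hS
  have hne : Nonempty S := ⟨⟨_, SP.zero n r, rfl⟩⟩
  have hsc : SecondCountableTopology C(Icc (0 : ℝ) 1 × Zn n, ℝ × (E n × E n)) := inferInstance
  have hss : TopologicalSpace.SeparableSpace S := inferInstance
  choose d hd using fun k : ℕ => (TopologicalSpace.denseSeq S k).2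
  refine ⟨d, fun p δ hδ => ?_⟩
  obtain ⟨k, hk⟩ := (TopologicalSpace.denseRange_denseSeq S).exists_dist_lt
    (⟨p.J, p, rfl⟩ : S) (show 0 < δ / 2 by positivity)
  refine ⟨k, near_of_J hr0 hr1 hδ ?_⟩
  rw [hd k, dist_comm]
  exact hk

end Pool.Agent.W_68f289_h51

end

section

/-!
Limits of fast Cauchy sequences of smooth Hamiltonian paths.
-/

open Set Metric Topology Filter Pool.Agent.W_MP_68f289_gt Pool.Agent.W_68f289_h35
open scoped NNReal ContDiff

namespace Pool.Agent.W_68f289_h51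

variable {n : ℕ} {r : ℝ}

/-- uniform limits of homeomorphisms whose inverses converge uniformly -/
lemma exists_homeo_lim {f : ℕ → (E n ≃ₜ E n)} {P Q : E n → E n}
    (hP : ∀ ε : ℝ, 0 < ε → ∃ N : ℕ, ∀ k ≥ N, ∀ x, dist (f k x) (P x) < ε)
    (hQ : ∀ ε : ℝ, 0 < ε → ∃ N : ℕ, ∀ k ≥ N, ∀ x, dist ((f k).symm x) (Q x) < ε) :
    ∃ φ : E n ≃ₜ E n, (∀ x, φ x = P x) ∧ ∀ x, φ.symm x = Q x := by
  have cP : Continuous P := by
    refine continuous_of_uniform_approx_of_continuous fun u hu => ?_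
    obtain ⟨ε, hε, hεu⟩ := Metric.mem_uniformity_dist.1 hu
    obtain ⟨N, hN⟩ := hP ε hε
    exact ⟨fun x => f N x, (f N).continuous, fun y => hεu (by rw [dist_comm]; exact hN N le_rfl y)⟩
  have cQ : Continuous Q := by
    refine continuous_of_uniform_approx_of_continuous fun u hu => ?_
    obtain ⟨ε, hε, hεu⟩ := Metric.mem_uniformity_dist.1 hu
    obtain ⟨N, hN⟩ := hQ ε hε
    exact ⟨fun x => (f N).symm x, (f N).symm.continuous,
      fun y => hεu (by rw [dist_comm]; exact hN N le_rfl y)⟩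
  have hPQ : ∀ x, P (Q x) = x := by
    intro x
    apply eq_of_forall_dist_le
    intro ε hε
    obtain ⟨δ, hδ, h1⟩ := Metric.continuousAt_iff.1 (cP.continuousAt (x := Q x)) (ε / 2)
      (half_pos hε)
    obtain ⟨N, hN⟩ := hP (ε / 2) (half_pos hε)
    obtain ⟨N', hN'⟩ := hQ δ hδ
    have h2 := h1 (hN' (max N N') (le_max_right _ _) x)
    have h3 := hN (max N N') (le_max_left _ _) ((f (max N N')).symm x)
    rw [Homeomorph.apply_symm_apply] at h3
    have h4 := dist_triangle_left (P (Q x)) x (P ((f (max N N')).symm x))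
    rw [dist_comm x (P _)] at h3
    linarith
  have hQP : ∀ x, Q (P x) = x := by
    intro x
    apply eq_of_forall_dist_le
    intro ε hε
    obtain ⟨δ, hδ, h1⟩ := Metric.continuousAt_iff.1 (cQ.continuousAt (x := P x)) (ε / 2)
      (half_pos hε)
    obtain ⟨N, hN⟩ := hQ (ε / 2) (half_pos hε)
    obtain ⟨N', hN'⟩ := hP δ hδ
    have h2 := h1 (hN' (max N N') (le_max_right _ _) x)
    have h3 := hN (max N N') (le_max_left _ _) (f (max N N') x)
    rw [Homeomorph.symm_apply_apply] at h3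
    have h4 := dist_triangle_left (Q (P x)) x (Q (f (max N N') x))
    rw [dist_comm x (Q _)] at h3
    linarith
  exact ⟨⟨⟨P, Q, hQP, hPQ⟩, cP, cQ⟩, fun _ => rfl, fun _ => rfl⟩

/-- fast Cauchy sequences -/
def Fast (a : ℕ → SP n r) : Prop := ∀ k : ℕ, Near ((1 / 2) ^ k) (a k) (a (k + 1))

lemma hofer_tri {p q s : SP n r} :
    hofer (fun t x => p.H t x - s.H t x) ≤ hofer (fun t x => p.H t x - q.H t x) +
      hofer (fun t x => q.H t x - s.H t x) := by
  have h := hofer_add_le (H := fun t x => p.H t x - q.H t x) (H' := fun t x => q.H t x - s.H t x)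
    (p.cont.sub q.cont) (q.cont.sub s.cont) (isCompact_CB r)
    (fun t x hx => by rw [p.supp t x hx, q.supp t x hx, sub_self])
    (fun t x hx => by rw [q.supp t x hx, s.supp t x hx, sub_self])
  have e : (fun (t : ℝ) (x : E n) => p.H t x - q.H t x + (q.H t x - s.H t x)) =
      fun t x => p.H t x - s.H t x := by
    funext t x; ring
  rw [e] at h
  exact h

lemma hofer_self (p : SP n r) : hofer (fun t x => p.H t x - p.H t x) = 0 := by
  have e : (fun (t : ℝ) (x : E n) => p.H t x - p.H t x) = fun _ _ => (0 : ℝ) := by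
    funext t x; ring
  rw [e, hofer_eq]
  simp [osc]

lemma hofer_symm (p q : SP n r) : hofer (fun t x => p.H t x - q.H t x) =
    hofer (fun t x => q.H t x - p.H t x) := by
  have hb : ∀ t, Bd (fun x => q.H t x - p.H t x) := fun t =>
    (bd_of_supp q.cont (isCompact_CB r) q.supp t).sub (bd_of_supp p.cont (isCompact_CB r) p.supp t)
  have h := hofer_const_mul (H := fun t x => q.H t x - p.H t x) hb (-1)
  have e : (fun (t : ℝ) (x : E n) => -1 * (q.H t x - p.H t x)) =
      fun t x => p.H t x - q.H t x := by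
    funext t x; ring
  rw [e] at h
  rw [h]
  simp

lemma Fast.hof {a : ℕ → SP n r} (ha : Fast a) (j m : ℕ) :
    hofer (fun t x => (a j).H t x - (a (j + m)).H t x) ≤ 2 * (1 / 2) ^ j - 2 * (1 / 2) ^ (j + m) := by
  induction m with
  | zero => rw [add_zero, hofer_self, sub_self]
  | succ m ih =>
    have h1 := hofer_tri (p := a j) (q := a (j + m)) (s := a (j + (m + 1)))
    have h2 := (ha (j + m)).hof
    have e : ((1 : ℝ) / 2) ^ (j + (m + 1)) = (1 / 2) ^ (j + m) * (1 / 2) := by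
      rw [← add_assoc, pow_succ]
    rw [e]
    have e2 : j + (m + 1) = j + m + 1 := rfl
    rw [e2] at h1 ⊢
    linarith

lemma Fast.cauchy {a : ℕ → SP n r} (ha : Fast a) : HCauchy fun k => (a k).H := by
  intro ε hε
  obtain ⟨N, hN⟩ := exists_pow_lt_of_lt_one (show 0 < ε / 4 by positivity)
    (show (1 : ℝ) / 2 < 1 by norm_num)
  have key : ∀ j k : ℕ, N ≤ j → j ≤ k →
      hofer (fun t x => (a j).H t x - (a k).H t x) < ε := by
    intro j k hj hjk
    obtain ⟨m, rfl⟩ := Nat.exists_eq_add_of_le hjk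
    have h1 := ha.hof j m
    have h2 : ((1 : ℝ) / 2) ^ j ≤ (1 / 2) ^ N := pow_le_pow_of_le_one (by norm_num) (by norm_num) hj
    have h3 : (0 : ℝ) < (1 / 2) ^ (j + m) := by positivity
    linarith
  refine ⟨N, fun j k hj hk => ?_⟩
  rcases le_total j k with h | h
  · exact key j k hj h
  · have := key k j hk h
    rw [hofer_symm] at this
    exact this

/-- fast Cauchy sequences converge to topological Hamiltonian paths -/
theorem Fast.exists_path (hr0 : 0 ≤ r) (hr1 : r < 1) {a : ℕ → SP n r} (ha : Fast a) :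
    ∃ Φ : Icc (0 : ℝ) 1 → (E n ≃ₜ E n),
      TPath n (CB n r) (fun k => (a k).H) (fun k => (a k).ψ) Φ ∧
      (∀ k (t : Icc (0 : ℝ) 1) x, dist ((a k).ψ t x) (Φ t x) ≤ 2 * (1 / 2) ^ k) ∧
      ∀ k (t : Icc (0 : ℝ) 1) x, dist ((a k).χ t x) ((Φ t).symm x) ≤ 2 * (1 / 2) ^ k := by
  have h1 : ∀ (t : Icc (0 : ℝ) 1) (x : E n), ∀ k, dist ((a k).ψ t x) ((a (k + 1)).ψ t x) ≤
      1 * (1 / 2) ^ k := fun t x k => by rw [one_mul]; exact (ha k).fwd t t.2 x
  have h2 : ∀ (t : Icc (0 : ℝ) 1) (x : E n), ∀ k, dist ((a k).χ t x) ((a (k + 1)).χ t x) ≤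
      1 * (1 / 2) ^ k := fun t x k => by rw [one_mul]; exact (ha k).bwd t t.2 x
  have hlt : (1 : ℝ) / 2 < 1 := by norm_num
  choose P hP using fun (t : Icc (0 : ℝ) 1) (x : E n) =>
    cauchySeq_tendsto_of_complete (cauchySeq_of_le_geometric _ _ hlt (h1 t x))
  choose Q hQ using fun (t : Icc (0 : ℝ) 1) (x : E n) =>
    cauchySeq_tendsto_of_complete (cauchySeq_of_le_geometric _ _ hlt (h2 t x))
  have hPd : ∀ k (t : Icc (0 : ℝ) 1) x, dist ((a k).ψ t x) (P t x) ≤ 2 * (1 / 2) ^ k := by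
    intro k t x
    have := dist_le_of_le_geometric_of_tendsto _ _ hlt (h1 t x) (hP t x) k
    refine this.trans (le_of_eq ?_)
    ring
  have hQd : ∀ k (t : Icc (0 : ℝ) 1) x, dist ((a k).χ t x) (Q t x) ≤ 2 * (1 / 2) ^ k := by
    intro k t x
    have := dist_le_of_le_geometric_of_tendsto _ _ hlt (h2 t x) (hQ t x) k
    refine this.trans (le_of_eq ?_)
    ring
  have hsmall : ∀ ε : ℝ, 0 < ε → ∃ N : ℕ, ∀ k ≥ N, 2 * ((1 : ℝ) / 2) ^ k < ε := by
    intro ε hε
    obtain ⟨N, hN⟩ := exists_pow_lt_of_lt_one (show 0 < ε / 2 by positivity) hlt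
    refine ⟨N, fun k hk => ?_⟩
    have h2 : ((1 : ℝ) / 2) ^ k ≤ (1 / 2) ^ N :=
      pow_le_pow_of_le_one (by norm_num) (by norm_num) hk
    linarith
  have hex : ∀ t : Icc (0 : ℝ) 1, ∃ φ : E n ≃ₜ E n, (∀ x, φ x = P t x) ∧
      ∀ x, φ.symm x = Q t x := by
    intro t
    refine exists_homeo_lim (f := fun k => HIso.homeo (a k).iso t) (fun ε hε => ?_) fun ε hε => ?_
    · obtain ⟨N, hN⟩ := hsmall ε hε
      exact ⟨N, fun k hk x => (hPd k t x).trans_lt (hN k hk)⟩
    · obtain ⟨N, hN⟩ := hsmall ε hε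
      exact ⟨N, fun k hk x => (hQd k t x).trans_lt (hN k hk)⟩
  choose Φ hΦ hΦs using hex
  refine ⟨Φ, ⟨isCompact_CB r, CB_sub hr0 hr1, fun k => (a k).iso, fun k => (a k).supp, ha.cauchy,
    fun ε hε => ?_⟩, fun k t x => by rw [hΦ]; exact hPd k t x,
    fun k t x => by rw [hΦs]; exact hQd k t x⟩
  obtain ⟨N, hN⟩ := hsmall ε hε
  refine ⟨N, fun k hk t x => ?_⟩
  rw [hΦ]
  exact (hPd k t x).trans_lt (hN k hk)

end Pool.Agent.W_68f289_h51

end

section

/-!
Uniform convergence of the inverse flows along a topological Hamiltonian path.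
-/

open Set Metric Topology Filter Pool.Agent.W_MP_68f289_gt Pool.Agent.W_68f289_h35
open scoped NNReal ContDiff

namespace Pool.Agent.W_68f289_h51

variable {n : ℕ} {r : ℝ} {K : Set (E n)} {H : ℕ → ℝ → E n → ℝ} {ψ : ℕ → ℝ → E n → E n}
  {Φ : Icc (0 : ℝ) 1 → (E n ≃ₜ E n)}

lemma path_cont (h : TPath n K H ψ Φ) : Continuous fun q : Icc (0 : ℝ) 1 × E n => Φ q.1 q.2 := by
  rw [Metric.continuous_iff]
  intro q ε hε
  obtain ⟨δ, hδ, h1⟩ := h.unif hε
  refine ⟨δ, hδ, fun p hp => ?_⟩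
  rw [Prod.dist_eq, max_lt_iff] at hp
  exact h1 p.1 q.1 (by rw [← Real.dist_eq]; exact hp.1) p.2 q.2 hp.2

lemma norm_le_of_Bl {x : E n} (hx : x ∈ Bl n) : ‖x‖ ≤ 1 :=
  (norm_le_en x).trans (mem_Bl.1 hx).le

/-- the maps of a path are uniformly injective -/
lemma path_inj (h : TPath n K H ψ Φ) {ε : ℝ} (hε : 0 < ε) :
    ∃ δ > 0, ∀ (t : Icc (0 : ℝ) 1) (x y : E n), dist (Φ t x) (Φ t y) < δ → dist x y < ε := by
  have hc := path_cont h
  set C : Set (E n) := closedBall 0 3 with hC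
  have hCc : IsCompact C := isCompact_closedBall 0 3
  set S : Set (Icc (0 : ℝ) 1 × (E n × E n)) :=
    (univ ×ˢ (C ×ˢ C)) ∩ {q | ε ≤ dist q.2.1 q.2.2} with hS
  have hSc : IsCompact S := by
    refine (isCompact_univ.prod (hCc.prod hCc)).inter_right ?_
    exact isClosed_le continuous_const
      ((continuous_fst.comp continuous_snd).dist (continuous_snd.comp continuous_snd))
  have hF : Continuous fun q : Icc (0 : ℝ) 1 × (E n × E n) => dist (Φ q.1 q.2.1) (Φ q.1 q.2.2) :=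
    (hc.comp (continuous_fst.prodMk (continuous_fst.comp continuous_snd))).dist
      (hc.comp (continuous_fst.prodMk (continuous_snd.comp continuous_snd)))
  obtain ⟨m, hm, hmS⟩ : ∃ m > 0, ∀ q ∈ S, m ≤ dist (Φ q.1 q.2.1) (Φ q.1 q.2.2) := by
    rcases S.eq_empty_or_nonempty with hem | hne
    · exact ⟨1, one_pos, fun q hq => by rw [hem] at hq; exact hq.elim⟩
    · obtain ⟨q, hq, hmin⟩ := hSc.exists_isMinOn hne hF.continuousOn
      refine ⟨dist (Φ q.1 q.2.1) (Φ q.1 q.2.2), dist_pos.2 fun he => ?_, fun p hp => hmin hp⟩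
      have h1 := (Φ q.1).injective he
      have h2 : ε ≤ dist q.2.1 q.2.2 := hq.2
      rw [h1, dist_self] at h2
      linarith
  have hoff : ∀ t x, x ∉ C → Φ t x = x := fun t x hx => h.off t fun hxK => hx (by
    rw [hC, mem_closedBall, dist_zero_right]
    linarith [norm_le_of_Bl (h.sub hxK)])
  refine ⟨min m (min ε 1), lt_min hm (lt_min hε one_pos), fun t x y hxy => ?_⟩
  have hd1 := hxy.trans_le (min_le_left _ _)
  have hd2 := hxy.trans_le ((min_le_right _ _).trans (min_le_left _ _))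
  have hd3 := hxy.trans_le ((min_le_right _ _).trans (min_le_right _ _))
  -- points outside of the support
  have key : ∀ x y : E n, x ∉ C → dist (Φ t x) (Φ t y) < ε → dist (Φ t x) (Φ t y) < 1 →
      dist x y < ε := by
    intro x y hx h1 h2
    rw [hoff t x hx] at h1 h2
    by_cases hy : y ∈ K
    · exfalso
      have h3 : Φ t y ∈ Bl n := by
        by_contra hcon
        have h4 : Φ t y ∉ K := fun h' => hcon (h.sub h')
        have h5 := (Φ t).injective (h.off t h4)
        rw [h5] at hcon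
        exact hcon (h.sub hy)
      have h4 := norm_le_of_Bl h3
      rw [hC, mem_closedBall, dist_zero_right, not_le] at hx
      have h5 : ‖x‖ ≤ dist x (Φ t y) + ‖Φ t y‖ := by
        rw [dist_eq_norm]
        exact norm_le_norm_sub_add x (Φ t y)
      linarith
    · rw [h.off t hy] at h1
      exact h1
  by_cases hx : x ∈ C
  · by_cases hy : y ∈ C
    · by_contra hcon
      rw [not_lt] at hcon
      exact absurd (hmS (t, (x, y)) ⟨⟨trivial, hx, hy⟩, hcon⟩) (not_le.2 hd1)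
    · rw [dist_comm]
      rw [dist_comm] at hd2 hd3
      exact key y x hy hd2 hd3
  · exact key x y hx hd2 hd3

/-- the inverse flows converge uniformly -/
theorem path_inv (h : TPath n K H ψ Φ) {ε : ℝ} (hε : 0 < ε) :
    ∃ N : ℕ, ∀ k ≥ N, ∀ (t : Icc (0 : ℝ) 1) (x : E n),
      dist (HIso.inv (h.iso k) t x) ((Φ t).symm x) < ε := by
  obtain ⟨δ, hδ, h1⟩ := path_inj h hε
  obtain ⟨N, hN⟩ := h.conv δ hδ
  refine ⟨N, fun k hk t x => h1 t (HIso.inv (h.iso k) t x) ((Φ t).symm x) ?_⟩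
  have h2 := hN k hk t (HIso.inv (h.iso k) t x)
  rw [HIso.apply_inv (h.iso k)] at h2
  rw [Homeomorph.apply_symm_apply, dist_comm]
  exact h2

end Pool.Agent.W_68f289_h51

end

section

/-!
Every topological Hamiltonian path is the limit of a fast Cauchy sequence of elements of a countable
dense set.
-/

open Set Metric Topology Filter Pool.Agent.W_MP_68f289_gt Pool.Agent.W_68f289_h35
open scoped NNReal ContDiff

namespace Pool.Agent.W_68f289_h51

variable {n : ℕ} {r : ℝ} {K : Set (E n)} {H : ℕ → ℝ → E n → ℝ} {ψ : ℕ → ℝ → E n → E n}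
  {Φ : Icc (0 : ℝ) 1 → (E n ≃ₜ E n)}

/-- dense sequences of smooth paths -/
def Dns (d : ℕ → SP n r) : Prop := ∀ (p : SP n r) (δ : ℝ), 0 < δ → ∃ k, Near δ (d k) p

lemma hofer_tri0 (p q : SP n r) : hofer p.H ≤ hofer (fun t x => p.H t x - q.H t x) +
    hofer q.H := by
  have h := hofer_add_le (H := fun t x => p.H t x - q.H t x) (H' := q.H)
    (p.cont.sub q.cont) q.cont (isCompact_CB r)
    (fun t x hx => by rw [p.supp t x hx, q.supp t x hx, sub_self]) q.supp
  have e : (fun (t : ℝ) (x : E n) => p.H t x - q.H t x + q.H t x) = p.H := by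
    funext t x; ring
  rw [e] at h
  exact h

/-- the smooth paths of a topological Hamiltonian path -/
def toSP (h : TPath n (CB n r) H ψ Φ) (k : ℕ) : SP n r := ⟨H k, ψ k, h.iso k, h.supp k⟩

theorem exists_fast {d : ℕ → SP n r} (hd : Dns d) (h : TPath n (CB n r) H ψ Φ) {δ : ℝ}
    (hδ : 0 < δ) : ∃ a : ℕ → ℕ, Fast (fun k => d (a k)) ∧
      (∀ k (t : Icc (0 : ℝ) 1) x, dist ((d (a k)).ψ t x) (Φ t x) ≤ (1 / 2) ^ k) ∧
      ((∀ k, hofer (H k) ≤ δ) → ∀ k, hofer (d (a k)).H ≤ 2 * δ) ∧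
      ((∀ t x, dist (Φ t x) x ≤ δ) → ∀ k, ∀ t ∈ Icc (0 : ℝ) 1, ∀ x,
        dist ((d (a k)).ψ t x) x ≤ 2 * δ) := by
  set η : ℕ → ℝ := fun k => min ((1 / 2) ^ k / 8) (δ / 2) with hη
  have hη0 : ∀ k, 0 < η k := fun k => lt_min (by positivity) (by positivity)
  have hη1 : ∀ k, η k ≤ (1 / 2) ^ k / 8 := fun k => min_le_left _ _
  have hη2 : ∀ k, η k ≤ δ / 2 := fun k => min_le_right _ _
  have hηs : ∀ k, η (k + 1) ≤ (1 / 2) ^ k / 8 := fun k => (hη1 (k + 1)).trans (by
    rw [pow_succ]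
    have : (0 : ℝ) < (1 / 2) ^ k := by positivity
    linarith)
  choose N1 hN1 using fun k => h.cauchy (η k) (hη0 k)
  choose N2 hN2 using fun k => h.conv (η k) (hη0 k)
  choose N3 hN3 using fun k => path_inv h (hη0 k)
  set J : ℕ → ℕ := fun k => ∑ i ∈ Finset.range (k + 1), (N1 i + N2 i + N3 i) with hJ
  have hJk : ∀ k, N1 k + N2 k + N3 k ≤ J k := fun k =>
    Finset.single_le_sum (f := fun i => N1 i + N2 i + N3 i) (fun _ _ => Nat.zero_le _)
      (Finset.self_mem_range_succ k)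
  have hJs : ∀ k, J k ≤ J (k + 1) := fun k => by
    simp only [hJ]
    rw [Finset.sum_range_succ _ (k + 1)]
    exact Nat.le_add_right _ _
  set p : ℕ → SP n r := fun k => toSP h (J k) with hp
  choose a ha using fun k => hd (p k) (η k) (hη0 k)
  -- estimates
  have e1 : ∀ k, hofer (fun t x => (p k).H t x - (p (k + 1)).H t x) ≤ η k := fun k =>
    (hN1 k (J k) (J (k + 1)) (by have := hJk k; omega) (by have := hJk k; have := hJs k; omega)).le
  have e2 : ∀ k (t : Icc (0 : ℝ) 1) x, dist ((p k).ψ t x) (Φ t x) ≤ η k := fun k t x =>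
    (hN2 k (J k) (by have := hJk k; omega) t x).le
  have e3 : ∀ k (t : Icc (0 : ℝ) 1) x, dist ((p k).χ t x) ((Φ t).symm x) ≤ η k := fun k t x =>
    (hN3 k (J k) (by have := hJk k; omega) t x).le
  have e4 : ∀ k (t : Icc (0 : ℝ) 1) x, dist ((d (a k)).ψ t x) (Φ t x) ≤ 2 * η k := by
    intro k t x
    have h1 := (ha k).fwd t t.2 x
    have h2 := e2 k t x
    have h3 := dist_triangle ((d (a k)).ψ t x) ((p k).ψ t x) (Φ t x)
    linarith
  have e5 : ∀ k (t : Icc (0 : ℝ) 1) x, dist ((d (a k)).χ t x) ((Φ t).symm x) ≤ 2 * η k := by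
    intro k t x
    have h1 := (ha k).bwd t t.2 x
    have h2 := e3 k t x
    have h3 := dist_triangle ((d (a k)).χ t x) ((p k).χ t x) ((Φ t).symm x)
    linarith
  refine ⟨a, fun k => ⟨?_, fun t ht x => ?_, fun t ht x => ?_⟩, fun k t x => ?_, fun hH k => ?_,
    fun hΦ k t ht x => ?_⟩
  · have h1 := hofer_tri (p := d (a k)) (q := p k) (s := d (a (k + 1)))
    have h2 := hofer_tri (p := p k) (q := p (k + 1)) (s := d (a (k + 1)))
    have h3 := (ha k).hof
    have h4 := (ha (k + 1)).hof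
    rw [hofer_symm] at h4
    have h5 := e1 k
    have h6 := hη1 k
    have h7 := hηs k
    have h8 : (0 : ℝ) < (1 / 2) ^ k := by positivity
    linarith
  · have h1 := e4 k ⟨t, ht⟩ x
    have h2 := e4 (k + 1) ⟨t, ht⟩ x
    have h3 := dist_triangle_right ((d (a k)).ψ t x) ((d (a (k + 1))).ψ t x) (Φ ⟨t, ht⟩ x)
    have h6 := hη1 k
    have h7 := hηs k
    have h8 : (0 : ℝ) < (1 / 2) ^ k := by positivity
    simp only at h1 h2
    linarith
  · have h1 := e5 k ⟨t, ht⟩ x
    have h2 := e5 (k + 1) ⟨t, ht⟩ x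
    have h3 := dist_triangle_right ((d (a k)).χ t x) ((d (a (k + 1))).χ t x)
      ((Φ ⟨t, ht⟩).symm x)
    have h6 := hη1 k
    have h7 := hηs k
    have h8 : (0 : ℝ) < (1 / 2) ^ k := by positivity
    simp only at h1 h2
    linarith
  · have h1 := e4 k t x
    have h6 := hη1 k
    have h8 : (0 : ℝ) < (1 / 2) ^ k := by positivity
    linarith
  · have h1 := hofer_tri0 (d (a k)) (p k)
    have h2 := (ha k).hof
    have h3 : hofer (p k).H ≤ δ := hH (J k)
    have h4 := hη2 k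
    linarith
  · have h1 := e4 k ⟨t, ht⟩ x
    have h2 := hΦ ⟨t, ht⟩ x
    have h3 := dist_triangle ((d (a k)).ψ t x) (Φ ⟨t, ht⟩ x) x
    have h4 := hη2 k
    simp only at h1
    linarith

end Pool.Agent.W_68f289_h51

end
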