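import Pool.Agent.W_68f289_h35m.Fc
import Pool.Agent.W_68f289_h35m.St2
import Pool.Agent.W_68f289_h51m.En

/-!
The trichotomy for Hamiltonian homeomorphisms and hameomorphisms of the ball.
-/

open Pool.Agent.W_MP_68f289_gt Pool.Agent.W_68f289_h35 Pool.Agent.W_68f289_h51

namespace Pool.Agent.W_68f289_h51

/-- the Calabi invariant descends to a homomorphism `C` on the hameomorphisms -/
def Canon (n : ℕ) : Prop :=
  ∃ C : Hm n → ℝ, IsChar C ∧ (∀ u H, EndsAt u H → CalLim H (C u)) ∧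
    (∃ D : G n → ℝ, IsChar D ∧ Extends D C) ∧
    ∀ N : Subgroup (Hm n), N ≠ ⊥ → (NormC N ∧ HClosed N ↔
      ∃ Λ : AddSubgroup ℝ, IsClosed (Λ : Set ℝ) ∧ ∀ u, u ∈ N ↔ C u ∈ Λ)

/-- there are loops of every Calabi value, and the hameomorphisms are topologically simple -/
def Flex (n : ℕ) : Prop :=
  (∀ c : ℝ, ∃ H, EndsAt (1 : Hm n) H ∧ CalLim H c) ∧
    ∀ N : Subgroup (Hm n), N ≠ ⊥ → NormC N → HClosed N → N = ⊤

/-- not every Hamiltonian homeomorphism is a hameomorphism -/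
def Gap (n : ℕ) : Prop :=
  Hameo n ≠ HamBar n ∧ ¬ Countable (G n ⧸ (Hameo n).subgroupOf (HamBar n)) ∧ ¬ EnergyEst n ∧
    ¬ IsSimpleGroup (G n)

theorem trichotomy (n : ℕ) (hn : 1 ≤ n) :
    let A := Canon n ∧ ¬ IsSimpleGroup (Hm n) ∧ Gap n
    let B1 := Flex n ∧ Gap n
    let B2 := Flex n ∧ Hameo n = HamBar n ∧ EnergyEst n
    (A ∨ B1 ∨ B2) ∧ ¬ (A ∧ B1) ∧ ¬ (A ∧ B2) ∧ ¬ (B1 ∧ B2) := by
  have hAB : ¬ (Canon n ∧ Flex n) := by
    rintro ⟨⟨C, h1, h2, -⟩, h3, -⟩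
    obtain ⟨H, h4, h5⟩ := h3 1
    have h6 := tendsto_nhds_unique (h2 1 H h4) h5
    have h7 := h1 1 1
    rw [mul_one, h6] at h7
    norm_num at h7
  have hG : Hameo n ≠ HamBar n → Gap n := fun h => ⟨h, gap hn h⟩
  refine ⟨?_, fun h => hAB ⟨h.1.1, h.2.1⟩, fun h => hAB ⟨h.1.1, h.2.1⟩,
    fun h => h.1.2.1 h.2.2.1⟩
  rcases alternative_final (n := n) hn with ⟨⟨C, h1, ⟨D, h2⟩, h3, h4, h5, h6⟩, -⟩ | ⟨⟨h1, h2⟩, -⟩
  · refine Or.inl ⟨⟨fun u => (C u).toAdd, fun u v => ?_, ?_, ⟨fun u => (D u).toAdd,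
      fun u v => ?_, fun u v huv => ?_⟩, fun N hN => h3 N hN⟩, h5, hG h4⟩
    · change (C (u * v)).toAdd = _
      rw [map_mul]
      rfl
    · rintro u H ⟨K, ψ, Φ, h, he⟩
      exact h1 K H ψ Φ h u he.symm
    · change (D (u * v)).toAdd = _
      rw [map_mul]
      rfl
    · change (D v).toAdd = (C u).toAdd
      rw [h2 u v huv]
  · have hF : Flex n := by
      refine ⟨fun c => ?_, h2⟩
      obtain ⟨K, H, ψ, Φ, h, h3, h4⟩ := h1 c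
      exact ⟨H, ⟨K, ψ, Φ, h, h3⟩, h4⟩
    by_cases h : Hameo n = HamBar n
    · exact Or.inr (Or.inr ⟨hF, h, no_gap h⟩)
    · exact Or.inr (Or.inl ⟨hF, hG h⟩)

end Pool.Agent.W_68f289_h51
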